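import Pool.Agent.N95.HK.Crv

/-!
Comparison of the heights of the points of the base and of the values of a correspondence.
-/

set_option autoImplicit false
set_option linter.unusedSectionVars false
set_option linter.overlappingInstances false

open FF IntermediateField

namespace Pool.Agent.N95.HK

open Pool.Agent.N111.GJ (Corr GenericPair spec_int exists_ext)
open Pool.Agent.W603.PV Pool.Agent.W603.LV

/-- heights of the roots of polynomials -/
theorem rel_hgt {K : Type} [Field K] [IsAlgClosed K] [CharZero K] {q : ℕ} (d : ℕ)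
    (P : ℕ → MvPolynomial (Fin q) K) : ∃ A : ℕ, ∀ (F : Type) [Field F] [Algebra K F] [IsFF K F]
      (v : Fin q → F) (t : F) (H : ℤ), 0 ≤ H → (∀ i, hgt K (v i) ≤ H) →
      MvPolynomial.aeval v (P d) ≠ 0 →
      ∑ i ∈ Finset.range (d + 1), MvPolynomial.aeval v (P i) * t ^ i = 0 → hgt K t ≤ A * H := by
  classical
  refine ⟨∑ i ∈ Finset.range d, ((P i).totalDegree + (P d).totalDegree) * q,
    fun F _ _ _ v t H hH hv hd h => ?_⟩
  have h0 : ∀ i, hgt K (MvPolynomial.aeval v (P i)) ≤ ((P i).totalDegree * q : ℕ) * H := by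
    intro i
    refine (Pool.Agent.TH145.MW.hgt_poly (P i) v hv).trans (le_of_eq ?_)
    rw [Fintype.card_fin]
    push_cast
    ring
  rw [Finset.sum_range_succ] at h
  have h1 : t ^ d = ∑ i : Fin d, (-(MvPolynomial.aeval v (P i)) / MvPolynomial.aeval v (P d)) *
      t ^ (i : ℕ) := by
    have h2 : MvPolynomial.aeval v (P d) * t ^ d =
        -∑ i ∈ Finset.range d, MvPolynomial.aeval v (P i) * t ^ i := by
      linear_combination h
    have h3 : t ^ d = (-∑ i ∈ Finset.range d, MvPolynomial.aeval v (P i) * t ^ i) /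
        MvPolynomial.aeval v (P d) := by
      rw [eq_div_iff hd, mul_comm]
      exact h2
    rw [h3, Finset.sum_range, neg_div, Finset.sum_div, ← Finset.sum_neg_distrib]
    refine Finset.sum_congr rfl fun i _ => ?_
    ring
  refine (Pool.Agent.TH145.MG.root_hgt d _ t h1).trans ?_
  rw [Finset.sum_range]
  push_cast
  rw [Finset.sum_mul]
  refine Finset.sum_le_sum fun i _ => ?_
  rw [div_eq_mul_inv]
  refine (Pool.Agent.TH145.MW.hgt_mul_le _ _).trans ?_
  rw [hgt_inv, Pool.Agent.TH145.MW.hgt_neg]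
  have h3 := h0 i
  have h4 := h0 d
  push_cast at h3 h4
  linarith

section

variable {k K : Type} [Field k] [Field K] [Algebra k K] {L : Type} [Field L] [Algebra K L]
  {N : ℕ} {u : Fin N → L} {W : Corr k K u}

theorem hom_y {F : Type} [Field F] [Algebra K F] {q : ℕ} (y : Fin q → W.ring)
    (φ : W.ring →ₐ[K] F) (P : MvPolynomial (Fin q) K) :
    φ (MvPolynomial.aeval y P) = MvPolynomial.aeval (fun j => φ (y j)) P := by
  have h1 : φ.comp (MvPolynomial.aeval y) = MvPolynomial.aeval fun j => φ (y j) := by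
    apply MvPolynomial.algHom_ext
    intro j
    rw [AlgHom.comp_apply, MvPolynomial.aeval_X, MvPolynomial.aeval_X]
  exact DFunLike.congr_fun h1 P

/-- polynomial relations -/
theorem exists_rel {Ω : Type} [Field Ω] [Algebra K Ω] (φ₀ : W.ring →ₐ[K] Ω) {q : ℕ}
    {y : Fin q → W.ring} (hy : Set.range y = {y : W.ring | (y : W.L') ∈ W.mons}) {t : W.ring}
    (ht : IsAlgebraic (adjoin K (W.values φ₀)) (φ₀ t)) :
    ∃ (d : ℕ) (P : ℕ → MvPolynomial (Fin q) K), φ₀ (MvPolynomial.aeval y (P d)) ≠ 0 ∧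
      φ₀ (∑ i ∈ Finset.range (d + 1), MvPolynomial.aeval y (P i) * t ^ i) = 0 := by
  classical
  rw [IntermediateField.isAlgebraic_adjoin_iff] at ht
  obtain ⟨p, hp, hp0⟩ := ht
  have hv : W.values φ₀ = Set.range fun i => φ₀ (y i) := by
    ext v
    constructor
    · rintro ⟨y', hy', rfl⟩
      have h1 : y' ∈ Set.range y := by rw [hy]; exact hy'
      obtain ⟨i, rfl⟩ := h1
      exact ⟨i, rfl⟩
    · rintro ⟨i, rfl⟩
      have h1 : y i ∈ Set.range y := ⟨i, rfl⟩
      rw [hy] at h1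
      exact ⟨y i, h1, rfl⟩
  have hc : ∀ i, ∃ P : MvPolynomial (Fin q) K, φ₀ (MvPolynomial.aeval y P) = (p.coeff i : Ω) := by
    intro i
    have h1 := (p.coeff i).2
    obtain ⟨w, hw⟩ : ∃ w : Ω, w = p.coeff i := ⟨_, rfl⟩
    rw [← hw] at h1 ⊢
    rw [hv, Algebra.adjoin_range_eq_range_aeval] at h1
    obtain ⟨P, hP⟩ := h1
    refine ⟨P, ?_⟩
    rw [hom_y]
    exact hP
  choose P hP using hc
  refine ⟨p.natDegree, P, ?_, ?_⟩
  · rw [hP]
    intro h0
    have h1 : p.coeff p.natDegree = 0 := Subtype.ext h0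
    exact hp (Polynomial.leadingCoeff_eq_zero.1 h1)
  · rw [map_sum]
    rw [Polynomial.aeval_eq_sum_range] at hp0
    refine Eq.trans (Finset.sum_congr rfl fun i _ => ?_) hp0
    rw [map_mul, map_pow, hP]
    rfl

/-- nonvanishing of integral elements -/
theorem exists_mult {Ω : Type} [Field Ω] [Algebra K Ω] (φ₀ : W.ring →ₐ[K] Ω) {c : W.ring}
    (hc : φ₀ c ≠ 0) (n : ℕ) : ∀ a : ℕ → MvPolynomial (Fin N) K,
      φ₀ (c ^ n + ∑ i ∈ Finset.range n, MvPolynomial.aeval W.uR (a i) * c ^ i) = 0 →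
      ∃ (G : MvPolynomial (Fin N) K) (s : W.ring), φ₀ (MvPolynomial.aeval W.uR G) ≠ 0 ∧
        φ₀ (MvPolynomial.aeval W.uR G - c * s) = 0 := by
  induction n with
  | zero =>
    intro a h
    rw [pow_zero, Finset.range_zero, Finset.sum_empty, add_zero, map_one] at h
    exact absurd h one_ne_zero
  | succ n ih =>
    intro a h
    have h1 : c ^ (n + 1) + ∑ i ∈ Finset.range (n + 1),
        MvPolynomial.aeval W.uR (a i) * c ^ i = (c ^ n + ∑ i ∈ Finset.range n,
          MvPolynomial.aeval W.uR (a (i + 1)) * c ^ i) * c + MvPolynomial.aeval W.uR (a 0) := by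
      rw [Finset.sum_range_succ', pow_zero, mul_one, add_mul, Finset.sum_mul, ← pow_succ, add_assoc]
      congr 2
      refine Finset.sum_congr rfl fun i _ => ?_
      rw [pow_succ]
      ring
    by_cases h0 : φ₀ (MvPolynomial.aeval W.uR (a 0)) = 0
    · refine ih (fun i => a (i + 1)) ?_
      rw [h1, map_add, h0, add_zero, map_mul] at h
      exact (mul_eq_zero.1 h).resolve_right hc
    · refine ⟨a 0, -(c ^ n + ∑ i ∈ Finset.range n,
        MvPolynomial.aeval W.uR (a (i + 1)) * c ^ i), h0, ?_⟩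
      rw [← h, h1]
      congr 1
      ring

theorem ring_int (b : W.ring) : IsIntegral (Algebra.adjoin K (Set.range u)) (b : W.L') := by
  induction b using W.induct with
  | hu j =>
    exact isIntegral_algebraMap
      (x := (⟨u j, Algebra.subset_adjoin ⟨j, rfl⟩⟩ : Algebra.adjoin K (Set.range u)))
  | hy y' hy' => exact W.mons_int hy'
  | hc c =>
    change IsIntegral _ (algebraMap K W.L' c)
    rw [IsScalarTower.algebraMap_apply K (Algebra.adjoin K (Set.range u)) W.L']
    exact isIntegral_algebraMap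
  | hadd a b ha hb => exact ha.add hb
  | hmul a b ha hb => exact ha.mul hb

/-- the locus where an element of the ring is not zero -/
theorem exists_nonzero {Ω : Type} [Field Ω] [Algebra K Ω] {φ₀ : W.ring →ₐ[K] Ω} {c : W.ring}
    (hc : φ₀ c ≠ 0) : ∃ G : MvPolynomial (Fin N) K,
      φ₀ (MvPolynomial.aeval W.uR G) ≠ 0 ∧ ∀ (F : Type) [Field F] [Algebra K F]
        (φ : W.ring →ₐ[K] F), (∀ b, φ₀ b = 0 → φ b = 0) → φ (MvPolynomial.aeval W.uR G) ≠ 0 →
        φ c ≠ 0 := by
  obtain ⟨n, e, he⟩ := Pool.Agent.Y735.LB.exists_monic (ring_int c)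
  have hP : ∀ i, ∃ P : MvPolynomial (Fin N) K, MvPolynomial.aeval u P = (e i : L) := by
    intro i
    obtain ⟨b, hb⟩ := e i
    change ∃ P : MvPolynomial (Fin N) K, MvPolynomial.aeval u P = b
    rw [Algebra.adjoin_range_eq_range_aeval] at hb
    exact hb
  choose P hP using hP
  have h0 : c ^ n + ∑ i ∈ Finset.range n, MvPolynomial.aeval W.uR (P i) * c ^ i = 0 := by
    apply Subtype.ext
    refine Eq.trans ?_ he
    rw [AddMemClass.coe_add, SubmonoidClass.coe_pow, AddSubmonoidClass.coe_finsetSum]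
    congr 1
    refine Finset.sum_congr rfl fun i _ => ?_
    rw [MulMemClass.coe_mul, SubmonoidClass.coe_pow, W.ring_aeval, hP]
    rfl
  obtain ⟨G, s, hG, hs⟩ := exists_mult φ₀ hc n P (by rw [h0, map_zero])
  refine ⟨G, hG, fun F _ _ φ hker hφG hφc => hφG ?_⟩
  have h1 := hker _ hs
  rw [map_sub, map_mul, hφc, zero_mul, sub_zero] at h1
  exact h1

/-- **Points of correspondences over points of subvarieties.** -/
theorem exists_over_ker {Ω₀ Ω : Type} [Field Ω₀] [Algebra K Ω₀] [Field Ω] [IsAlgClosed Ω]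
    [Algebra K Ω] (φ₀ : W.ring →ₐ[K] Ω₀) {f : Fin N → Ω}
    (hf : ∀ P : MvPolynomial (Fin N) K, φ₀ (MvPolynomial.aeval W.uR P) = 0 →
      MvPolynomial.aeval f P = 0) :
    ∃ φ : W.ring →ₐ[K] Ω, W.Over φ f ∧ ∀ b, φ₀ b = 0 → φ b = 0 := by
  classical
  obtain ⟨z, hz⟩ : ∃ z : Fin N → Ω₀, z = fun j => φ₀ (W.uR j) := ⟨_, rfl⟩
  have hzP : ∀ P : MvPolynomial (Fin N) K, MvPolynomial.aeval z P = φ₀ (MvPolynomial.aeval W.uR P) := by
    intro P
    rw [hz]
    exact (W.hom_aeval φ₀ P).symm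
  have hsur : ∀ a : Algebra.adjoin K (Set.range z), ∃ P : MvPolynomial (Fin N) K,
      MvPolynomial.aeval z P = (a : Ω₀) := by
    rintro ⟨a, ha⟩
    rw [Algebra.adjoin_range_eq_range_aeval] at ha
    exact ha
  choose P hP using hsur
  have hwell : ∀ (a : Algebra.adjoin K (Set.range z)) (Q : MvPolynomial (Fin N) K),
      MvPolynomial.aeval z Q = (a : Ω₀) → MvPolynomial.aeval f (P a) = MvPolynomial.aeval f Q := by
    intro a Q hQ
    have h1 := hf (P a - Q) (by rw [← hzP, map_sub, hP, hQ, sub_self])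
    rw [map_sub] at h1
    exact sub_eq_zero.1 h1
  let χ : Algebra.adjoin K (Set.range z) →+* Ω :=
    { toFun := fun a => MvPolynomial.aeval f (P a)
      map_one' := by
        rw [hwell 1 1 (by rw [map_one]; rfl), map_one]
      map_mul' := fun a b => by
        rw [hwell (a * b) (P a * P b) (by rw [map_mul, hP, hP]; rfl), map_mul]
      map_zero' := by
        rw [hwell 0 0 (by rw [map_zero]; rfl), map_zero]
      map_add' := fun a b => by
        rw [hwell (a + b) (P a + P b) (by rw [map_add, hP, hP]; rfl), map_add] }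
  have hχ : ∀ a, χ a = MvPolynomial.aeval f (P a) := fun a => rfl
  have hle : Algebra.adjoin K (Set.range z) ≤ φ₀.range := by
    rw [Algebra.adjoin_le_iff]
    rintro _ ⟨j, rfl⟩
    exact ⟨W.uR j, by rw [hz]; rfl⟩
  let _ : Algebra (Algebra.adjoin K (Set.range z)) φ₀.range :=
    (Subalgebra.inclusion hle).toRingHom.toAlgebra
  have hιv : ∀ a : Algebra.adjoin K (Set.range z),
      ((algebraMap (Algebra.adjoin K (Set.range z)) φ₀.range a : φ₀.range) : Ω₀) = a :=
    fun a => rfl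
  have hinj : Function.Injective (algebraMap (Algebra.adjoin K (Set.range z)) φ₀.range) := by
    intro a b hab
    have h1 := congrArg (fun t : φ₀.range => (t : Ω₀)) hab
    simp only [hιv] at h1
    exact Subtype.ext h1
  have hst : IsScalarTower (Algebra.adjoin K (Set.range z)) φ₀.range Ω₀ :=
    IsScalarTower.of_algebraMap_eq fun a => rfl
  have hint : Algebra.IsIntegral (Algebra.adjoin K (Set.range z)) φ₀.range := by
    constructor
    rintro ⟨_, b, rfl⟩
    have h1 : IsIntegral (Algebra.adjoin K (Set.range z)) (φ₀ b) := by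
      induction b using W.induct with
      | hu j =>
        have h2 : (φ₀ ⟨_, W.base_mem j⟩ : Ω₀) = algebraMap (Algebra.adjoin K (Set.range z)) Ω₀
          ⟨z j, Algebra.subset_adjoin ⟨j, rfl⟩⟩ := by
          change φ₀ (W.uR j) = z j
          rw [hz]
        rw [h2]
        exact isIntegral_algebraMap
      | hy y' hy' =>
        obtain ⟨p, hp, hpz, hp0⟩ := spec_int (E := Ω₀) (B := W.ring) (φ := φ₀) (z := z) W.base_mem
          (fun j => by
            change φ₀ (W.uR j) = z j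
            rw [hz]) (θ := y') (W.mons_int hy')
        refine Pool.Agent.Y735.LB.isIntegral_of_monic (N := p.natDegree)
          (fun i => ⟨p.coeff i, hpz i⟩) ?_
        rw [← hp0, Polynomial.aeval_eq_sum_range, Finset.sum_range_succ, hp.coeff_natDegree,
          one_smul, add_comm]
        congr 1
      | hc c =>
        rw [AlgHom.commutes, IsScalarTower.algebraMap_apply K (Algebra.adjoin K (Set.range z)) Ω₀]
        exact isIntegral_algebraMap
      | hadd a b ha hb =>
        rw [map_add]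
        exact ha.add hb
      | hmul a b ha hb =>
        rw [map_mul]
        exact ha.mul hb
    exact (isIntegral_algHom_iff (IsScalarTower.toAlgHom (Algebra.adjoin K (Set.range z)) φ₀.range
      Ω₀) Subtype.val_injective).1 h1
  obtain ⟨φ, hφ⟩ := exists_ext hinj χ
  have hφu : ∀ (Q : MvPolynomial (Fin N) K) (y : W.ring), φ₀ y = MvPolynomial.aeval z Q →
      φ (φ₀.rangeRestrict y) = MvPolynomial.aeval f Q := by
    intro Q y hy
    have h0 : MvPolynomial.aeval z Q ∈ Algebra.adjoin K (Set.range z) := by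
      rw [Algebra.adjoin_range_eq_range_aeval]
      exact ⟨Q, rfl⟩
    have h1 : φ₀.rangeRestrict y = algebraMap (Algebra.adjoin K (Set.range z)) φ₀.range
        ⟨MvPolynomial.aeval z Q, h0⟩ := Subtype.ext hy
    rw [h1, hφ, hχ, hwell _ Q rfl]
  refine ⟨{ φ.comp φ₀.rangeRestrict.toRingHom with commutes' := fun c => ?_ }, fun j y hy => ?_,
    fun b hb => ?_⟩
  · change φ (φ₀.rangeRestrict (algebraMap K W.ring c)) = _
    rw [hφu (MvPolynomial.C c) _ (by rw [AlgHom.commutes, MvPolynomial.aeval_C]),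
      MvPolynomial.aeval_C]
  · change φ (φ₀.rangeRestrict y) = _
    rw [hφu (MvPolynomial.X j) _ (by
      rw [MvPolynomial.aeval_X, hz]
      exact congrArg φ₀ (Subtype.ext hy)), MvPolynomial.aeval_X]
  · change φ (φ₀.rangeRestrict b) = 0
    have h1 : φ₀.rangeRestrict b = 0 := Subtype.ext hb
    rw [h1, map_zero]

theorem exists_hom_prime {K R : Type} [Field K] [CommRing R] [Algebra K R] (I : Ideal R)
    [hI : I.IsPrime] : ∃ (Ω : Type) (_ : Field Ω) (_ : Algebra K Ω) (φ₀ : R →ₐ[K] Ω),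
      ∀ b, φ₀ b = 0 ↔ b ∈ I := by
  refine ⟨FractionRing (R ⧸ I), inferInstance, inferInstance,
    (IsScalarTower.toAlgHom K (R ⧸ I) (FractionRing (R ⧸ I))).comp (Ideal.Quotient.mkₐ K I),
    fun b => ?_⟩
  change algebraMap (R ⧸ I) (FractionRing (R ⧸ I)) (Ideal.Quotient.mk I b) = 0 ↔ _
  rw [FaithfulSMul.algebraMap_eq_zero_iff, Ideal.Quotient.eq_zero_iff_mem]

theorem ring_noeth : IsNoetherianRing W.ring := by
  have h1 : W.ring.FG := by
    rw [Subalgebra.fg_def]
    refine ⟨Set.range (fun j => algebraMap L W.L' (u j)) ∪ W.mons, ?_, rfl⟩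
    refine (Set.finite_range _).union ?_
    refine (W.mons_fin.image fun y : W.ring => (y : W.L')).subset fun y hy => ?_
    exact ⟨⟨y, Algebra.subset_adjoin (Or.inr hy)⟩, hy, rfl⟩
  exact isNoetherianRing_of_fg h1

end

section

variable {k K : Type} [Field k] [Field K] [IsAlgClosed K] [CharZero K] [Algebra k K] {L : Type}
  [Field L] [Algebra K L] {N : ℕ} {u : Fin N → L} {W : Corr k K u}

/-- heights off a closed subset -/
theorem cmp_one {Ω : Type} [Field Ω] [Algebra K Ω] (φ₀ : W.ring →ₐ[K] Ω)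
    (h : ∀ j, IsAlgebraic (adjoin K (W.values φ₀)) (φ₀ (W.uR j))) :
    ∃ c : W.ring, φ₀ c ≠ 0 ∧ ∃ A : ℕ, ∀ (F : Type) [Field F] [Algebra K F] [IsFF K F]
      (φ : W.ring →ₐ[K] F) (H : ℤ), 0 ≤ H →
      (∀ y : W.ring, (y : W.L') ∈ W.mons → hgt K (φ y) ≤ H) → (∀ b, φ₀ b = 0 → φ b = 0) →
      φ c ≠ 0 → ∀ j, hgt K (φ (W.uR j)) ≤ A * H := by
  classical
  obtain ⟨q, y, hy⟩ := W.enum'
  choose d P hP0 hP using fun j => exists_rel φ₀ hy (h j)
  choose A hA using fun j => rel_hgt (K := K) (d j) (P j)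
  refine ⟨∏ j, MvPolynomial.aeval y (P j (d j)), ?_, ∑ j, A j,
    fun F _ _ _ φ H hH hv hker hc j => ?_⟩
  · rw [map_prod]
    exact Finset.prod_ne_zero_iff.2 fun j _ => hP0 j
  rw [map_prod] at hc
  have hc' := fun j => Finset.prod_ne_zero_iff.1 hc j (Finset.mem_univ j)
  have h1 := hA j F (fun i => φ (y i)) (φ (W.uR j)) H hH (fun i => hv (y i) (by
    have h1 : y i ∈ Set.range y := ⟨i, rfl⟩
    rw [hy] at h1
    exact h1)) (by
    rw [← hom_y]
    exact hc' j) (by
    have h2 := hker _ (hP j)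
    rw [map_sum] at h2
    refine Eq.trans (Finset.sum_congr rfl fun i _ => ?_) h2
    rw [map_mul, map_pow, hom_y])
  refine h1.trans (mul_le_mul_of_nonneg_right ?_ hH)
  exact_mod_cast Finset.single_le_sum (f := A) (fun _ _ => Nat.zero_le _) (Finset.mem_univ j)

/-- **Comparison of heights for quasi-finite correspondences.** -/
theorem cmp_qf (hqf : W.QuasiFinite) : ∃ A : ℕ, ∀ (F : Type) [Field F] [Algebra K F] [IsFF K F]
      (φ : W.ring →ₐ[K] F) (H : ℤ), 0 ≤ H →
      (∀ y : W.ring, (y : W.L') ∈ W.mons → hgt K (φ y) ≤ H) →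
      ∀ j, hgt K (φ (W.uR j)) ≤ A * H := by
  classical
  have hno : IsNoetherianRing W.ring := ring_noeth
  suffices h : ∀ I : Ideal W.ring, ∃ A : ℕ, ∀ (F : Type) [Field F] [Algebra K F] [IsFF K F]
      (φ : W.ring →ₐ[K] F) (H : ℤ), 0 ≤ H →
      (∀ y : W.ring, (y : W.L') ∈ W.mons → hgt K (φ y) ≤ H) → (∀ b ∈ I, φ b = 0) →
      ∀ j, hgt K (φ (W.uR j)) ≤ A * H by
    obtain ⟨A, hA⟩ := h ⊥
    refine ⟨A, fun F _ _ _ φ H hH hv => hA F φ H hH hv fun b hb => ?_⟩
    rw [Ideal.mem_bot] at hb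
    rw [hb, map_zero]
  intro I
  induction I using IsNoetherian.induction with
  | _ I ih =>
  have hsup : ∀ c : W.ring, c ∉ I → ∃ A : ℕ, ∀ (F : Type) [Field F] [Algebra K F] [IsFF K F]
      (φ : W.ring →ₐ[K] F) (H : ℤ), 0 ≤ H →
      (∀ y : W.ring, (y : W.L') ∈ W.mons → hgt K (φ y) ≤ H) → (∀ b ∈ I, φ b = 0) → φ c = 0 →
      ∀ j, hgt K (φ (W.uR j)) ≤ A * H := by
    intro c hc
    obtain ⟨A, hA⟩ := ih (I ⊔ Ideal.span {c}) (by
      refine lt_of_le_of_ne le_sup_left fun h => hc ?_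
      rw [h]
      exact Ideal.mem_sup_right (Ideal.mem_span_singleton_self c))
    refine ⟨A, fun F _ _ _ φ H hH hv hI hφc => hA F φ H hH hv ?_⟩
    have h1 : I ⊔ Ideal.span {c} ≤ RingHom.ker φ := by
      rw [sup_le_iff, Ideal.span_singleton_le_iff_mem]
      exact ⟨fun b hb => hI b hb, hφc⟩
    exact fun b hb => h1 hb
  by_cases hI1 : I = ⊤
  · refine ⟨0, fun F _ _ _ φ H hH hv hI => ?_⟩
    have h1 := hI 1 (by rw [hI1]; trivial)
    rw [map_one] at h1
    exact absurd h1 one_ne_zero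
  by_cases hIp : Ideal.IsPrime I
  swap
  · rw [Ideal.isPrime_iff] at hIp
    push Not at hIp
    obtain ⟨a, b, hab, ha, hb⟩ := hIp hI1
    obtain ⟨A1, hA1⟩ := hsup a ha
    obtain ⟨A2, hA2⟩ := hsup b hb
    refine ⟨A1 + A2, fun F _ _ _ φ H hH hv hI j => ?_⟩
    have h1 := hI _ hab
    rw [map_mul, mul_eq_zero] at h1
    push_cast
    rw [add_mul]
    have h2 : (0 : ℤ) ≤ A1 * H := by positivity
    have h3 : (0 : ℤ) ≤ A2 * H := by positivity
    rcases h1 with h1 | h1
    · linarith [hA1 F φ H hH hv hI h1 j]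
    · linarith [hA2 F φ H hH hv hI h1 j]
  obtain ⟨Ω, _, _, φ₀, hφ₀⟩ := exists_hom_prime (K := K) I
  obtain ⟨c, hc, A1, hA1⟩ := cmp_one φ₀ fun j => Pool.Agent.N111.GJ.alg_of_qf hqf φ₀ j
  obtain ⟨A2, hA2⟩ := hsup c fun h => hc ((hφ₀ c).2 h)
  refine ⟨A1 + A2, fun F _ _ _ φ H hH hv hI j => ?_⟩
  push_cast
  rw [add_mul]
  have h2 : (0 : ℤ) ≤ A1 * H := by positivity
  have h3 : (0 : ℤ) ≤ A2 * H := by positivity
  by_cases h1 : φ c = 0
  · linarith [hA2 F φ H hH hv hI h1 j]
  · linarith [hA1 F φ H hH hv (fun b hb => hI b ((hφ₀ b).1 hb)) h1 j]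

end

end Pool.Agent.N95.HK
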