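import Pool.Agent.N95.HK.Log
import Pool.Agent.N111.GJ.Stmt
import Pool.Agent.W619.PQ.Local

/-!
Heights of the values of correspondences at the points over function fields of one variable.
-/

set_option autoImplicit false
set_option linter.unusedSectionVars false
set_option linter.overlappingInstances false

open FF IntermediateField

namespace Pool.Agent.N95.HK

open Pool.Agent.N111.GJ (Corr GenericPair point_desc mon_map reg_values fib_deg spec_point
  prod_single)
open Pool.Agent.W603.PV Pool.Agent.W603.LV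

/-- The places of the base over which there are poles of the coordinates. -/
def poles (K B : Type) {E : Type} [Field K] [Field B] [Field E] [Algebra K B] [Algebra K E]
    [Algebra B E] {N : ℕ} (f : Fin N → E) : Set (Place K B) :=
  {P | ∃ (Q : Place K E) (e : ℕ), Over Q P e ∧ ∃ j, ¬ Q.Reg (f j)}

theorem poles_finite {K B E : Type} [Field K] [Field B] [Field E] [IsAlgClosed K] [CharZero K]
    [Algebra K B] [Algebra K E] [Algebra B E] [IsScalarTower K B E] [FiniteDimensional B E]
    [IsFF K B] [IsFF K E] {N : ℕ} (f : Fin N → E) : (poles K B f).Finite := by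
  classical
  have h1 : {Q : Place K E | ∃ j, ¬ Q.Reg (f j)}.Finite := by
    refine (Set.finite_iUnion fun j => finite_support (k := K) (f j)).subset ?_
    rintro Q ⟨j, hj⟩
    refine Set.mem_iUnion.2 ⟨j, ?_⟩
    intro h0
    apply hj
    exact Or.inr (le_of_eq h0.symm)
  choose P e hP using fun Q : Place K E => Pool.Agent.Y172.exists_below (K := B) Q
  refine (h1.image P).subset ?_
  rintro P' ⟨Q, e', hQ, hj⟩
  exact ⟨Q, hj, (Pool.Agent.Y172.over_unique' (hP Q) hQ).1⟩

theorem mon_hgt {k K : Type} [Field k] [Field K] [IsAlgClosed K] [CharZero K] [Algebra k K]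
    {X : GenericPair k K} {F : Type} [Field F] [Algebra K F] [IsFF K F] {x : Fin (X.n + 1) → F}
    {H : ℤ} (hH : 0 ≤ H) (hx : ∀ j, hgt K (x j) ≤ H) (b : X.A) {I : Fin (X.n + 1) →₀ ℕ}
    (hI : I.degree = X.d b) : hgt K (X.mon x b I) ≤ (2 * (X.size * (X.n + 1)) : ℕ) * H := by
  classical
  have hdb : X.d b ≤ X.size := by
    unfold GenericPair.size
    exact (Finset.single_le_sum (f := X.d) (fun _ _ => Nat.zero_le _) (Finset.mem_univ b)).trans
      (Nat.le_add_right _ _)
  have h0 : ∀ P : MvPolynomial (Fin (X.n + 1)) K, P.IsHomogeneous (X.d b) →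
      hgt K (MvPolynomial.aeval x P) ≤ (X.size * (X.n + 1) : ℕ) * H := by
    intro P hP
    refine (Pool.Agent.TH145.MW.hgt_poly P x hx).trans ?_
    have h1 : P.totalDegree ≤ X.size := hP.totalDegree_le.trans hdb
    rw [Fintype.card_fin]
    have h2 : (P.totalDegree : ℤ) ≤ X.size := by exact_mod_cast h1
    have h3 : (0 : ℤ) ≤ ((X.n + 1 : ℕ) : ℤ) * H := by positivity
    refine (mul_le_mul_of_nonneg_right h2 h3).trans (le_of_eq ?_)
    push_cast
    ring
  have h1 : MvPolynomial.aeval x (MvPolynomial.monomial I (1 : K)) = ∏ i, x i ^ I i := by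
    rw [MvPolynomial.aeval_monomial, map_one, one_mul, Finsupp.prod_fintype]
    intro i
    exact pow_zero _
  unfold GenericPair.mon
  rw [div_eq_mul_inv]
  refine (Pool.Agent.TH145.MW.hgt_mul_le _ _).trans ?_
  rw [hgt_inv, ← h1]
  have h2 := h0 _ (MvPolynomial.isHomogeneous_monomial (1 : K) hI)
  have h3 := h0 _ (X.F_form b)
  push_cast at h2 h3 ⊢
  linarith

section

variable {k K : Type} [Field k] [Field K] [IsAlgClosed K] [CharZero K] [Algebra k K] {L : Type}
  [Field L] [Algebra K L] {N : ℕ} {u : Fin N → L}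

/-- **Heights of the values of correspondences.** -/
theorem values_bound (W : Corr k K u) {r e : ℕ} (hr : W.FibresLE r)
    (hd : 2 * W.X.m + 2 * (r * e) ≤ W.X.size + 1) :
    ∃ A : ℕ, ∀ (B E Ω : Type) [Field B] [Field E] [Field Ω] [IsAlgClosed Ω] [Algebra K B]
      [Algebra K E] [Algebra B E] [IsScalarTower K B E] [FiniteDimensional B E] [IsFF K B]
      [IsFF K E] [Algebra K Ω] [Algebra E Ω] [IsScalarTower K E Ω], Module.finrank B E ≤ e →
      ∀ (f : Fin N → E) (φ : W.ring →ₐ[K] Ω), W.Over φ (fun j => algebraMap E Ω (f j)) →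
      ∃ (F : IntermediateField E Ω) (_ : FiniteDimensional E F) (φ' : W.ring →ₐ[K] F),
        Module.finrank E F ≤ r ∧ (∀ y, ((φ' y : F) : Ω) = φ y) ∧
        ∀ y : W.ring, (y : W.L') ∈ W.mons →
          hgt K (φ' y) ≤ A * max (canDeg K B + (poles K B f).ncard) 0 := by
  classical
  have hac : IsAlgClosed (algebraicClosure k K) := (algebraicClosure.isAlgClosure k K).isAlgClosed
  obtain ⟨A₀, hA₀⟩ := log_bound (R := r * e) W.X.V W.X.V_form W.X.V_dim W.X.C hd W.X.F
    W.X.F_form W.X.I₀ W.X.coeff_ne W.X.generic.algebraicClosure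
  refine ⟨2 * (W.X.size * (W.X.n + 1)) * ((r * e) * A₀), fun B E Ω _ _ _ _ _ _ _ _ _ _ _ _ _ _
    he f φ hφ => ?_⟩
  obtain ⟨χ, hχ⟩ : ∃ χ : ℤ, χ = max (canDeg K B + (poles K B f).ncard) 0 := ⟨_, rfl⟩
  have hχ0 : 0 ≤ χ := by rw [hχ]; exact le_max_right _ _
  rw [← hχ]
  -- the field
  let E₁ : IntermediateField K E := adjoin K (Set.range f)
  let z : Fin N → E₁ := fun j => ⟨f j, subset_adjoin _ _ ⟨j, rfl⟩⟩
  have hgen : adjoin K (Set.range z) = ⊤ := by
    apply IntermediateField.map_injective E₁.val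
    rw [← AlgHom.fieldRange_eq_map, IntermediateField.fieldRange_val,
      IntermediateField.adjoin_map, ← Set.range_comp]
    rfl
  have hcE : CharZero E₁ := charZero_of_injective_algebraMap (algebraMap K E₁).injective
  obtain ⟨hf1, hf2⟩ := fib_deg (E := E₁) (z := z) hr hgen (φ := φ) hφ
  obtain ⟨hF1, hF2⟩ := Pool.Agent.Y735.R.finrank_adjoin_le (E := E₁) (F := E) (W.values φ)
    (adjoin E₁ (W.values φ)) (subset_adjoin _ _)
  let F : IntermediateField E Ω := adjoin E (W.values φ)
  have hFr : Module.finrank E F ≤ r := hF2.trans hf2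
  have hmem : ∀ b, φ b ∈ F := by
    intro b
    induction b using W.induct with
    | hu j =>
      rw [hφ j _ rfl]
      exact F.algebraMap_mem _
    | hy y' hy' => exact subset_adjoin _ _ ⟨y', hy', rfl⟩
    | hc c =>
      rw [AlgHom.commutes, IsScalarTower.algebraMap_apply K E Ω]
      exact F.algebraMap_mem _
    | hadd a b ha hb =>
      rw [map_add]
      exact add_mem ha hb
    | hmul a b ha hb =>
      rw [map_mul]
      exact mul_mem ha hb
  let φ' : W.ring →ₐ[K] F :=
    { toFun := fun y => ⟨φ y, hmem y⟩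
      map_one' := Subtype.ext (map_one φ)
      map_mul' := fun a b => Subtype.ext (map_mul φ a b)
      map_zero' := Subtype.ext (map_zero φ)
      map_add' := fun a b => Subtype.ext (map_add φ a b)
      commutes' := fun c => Subtype.ext (φ.commutes c) }
  have hφ' : ∀ y, ((φ' y : F) : Ω) = φ y := fun y => rfl
  have hFF : IsFF K F := isFF_of_finite (F := E)
  refine ⟨F, hF1, φ', hFr, hφ', ?_⟩
  -- the point
  obtain ⟨x', j0, hx0, hpt, hmon, hquot⟩ := spec_point φ
  have hxF : ∀ i, x' i ∈ F := by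
    intro i
    obtain ⟨v₁, h1, v₂, h2, h⟩ := hquot i
    rw [h]
    exact div_mem (subset_adjoin _ _ h1) (subset_adjoin _ _ h2)
  let x : Fin (W.X.n + 1) → F := fun i => ⟨x' i, hxF i⟩
  let ψ : F →ₐ[K] Ω := F.val.restrictScalars K
  have hptF : W.X.Point x := point_desc ψ hpt
  have hmonF : ∀ b I, b ∉ W.X.C → I.degree = W.X.d b → φ (W.Y b I) = ((W.X.mon x b I : F) : Ω) := by
    intro b I hb hI
    rw [hmon b I hb hI]
    exact (mon_map ψ x b I).symm
  -- the field over the base
  let _ : Algebra B Ω := ((algebraMap E Ω).comp (algebraMap B E)).toAlgebra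
  have hst1 : IsScalarTower B E Ω := IsScalarTower.of_algebraMap_eq fun _ => rfl
  have hst2 : IsScalarTower K B Ω := IsScalarTower.of_algebraMap_eq fun c => by
    change _ = algebraMap E Ω (algebraMap B E (algebraMap K B c))
    rw [← IsScalarTower.algebraMap_apply K B E, ← IsScalarTower.algebraMap_apply K E Ω]
  have hst3 : IsScalarTower B E F := inferInstance
  have hst4 : IsScalarTower K B F := IsScalarTower.of_algebraMap_eq fun c => Subtype.ext
    (IsScalarTower.algebraMap_apply K B Ω c)
  have hfdB : FiniteDimensional B F := FiniteDimensional.trans B E F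
  have hBF : Module.finrank B F ≤ r * e := by
    rw [← Module.finrank_mul_finrank B E F, mul_comm]
    exact Nat.mul_le_mul hFr he
  let L₂ : IntermediateField B F := adjoin B (Set.range x)
  have hL₂F : IsFF K L₂ := isFF_of_finite (F := B)
  let x₂ : Fin (W.X.n + 1) → L₂ := fun i => ⟨x i, subset_adjoin _ _ ⟨i, rfl⟩⟩
  have hst5 : IsScalarTower K L₂ F := IsScalarTower.of_algebraMap_eq fun _ => rfl
  have hgen2 : adjoin B (Set.range x₂) = ⊤ := by
    apply IntermediateField.map_injective L₂.val
    rw [← AlgHom.fieldRange_eq_map, IntermediateField.fieldRange_val,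
      IntermediateField.adjoin_map, ← Set.range_comp]
    rfl
  have hpt2 : W.X.Point x₂ := point_desc (L₂.val.restrictScalars K) hptF
  have hL₂r : Module.finrank B L₂ ≤ r * e := by
    refine le_trans ?_ hBF
    exact LinearMap.finrank_le_finrank_of_injective (f := L₂.val.toLinearMap)
      (fun a b h => Subtype.ext h)
  have hL₂r' : Module.finrank L₂ F ≤ r * e := by
    have h2 := Module.finrank_mul_finrank B L₂ F
    have h3 := Module.finrank_pos (R := B) (M := L₂)
    nlinarith
  have hx2 : ∀ j, hgt K (x₂ j) ≤ A₀ * χ := by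
    rw [hχ]
    refine hA₀ B L₂ hL₂r x₂ j0 (Subtype.ext (Subtype.ext hx0)) hgen2 hpt2.mem_V hpt2.mem_C
      hpt2.notMem (poles K B f) (poles_finite f) ?_
    rintro P Q a hPQ ⟨b, hb, hlt⟩
    obtain ⟨Q₃, a₃, hQ₃⟩ := Pool.Agent.Y172.exists_above (K := L₂) (L := F) Q
    obtain ⟨Q₄, a₄, hQ₄⟩ := Pool.Agent.Y172.exists_below (K := E) (L := F) Q₃
    obtain ⟨P', a₅, hP'⟩ := Pool.Agent.Y172.exists_below (K := B) (L := E) Q₄
    have h1 := Pool.Agent.W619.PQ.over_trans hQ₃ hPQ
    have h2 := Pool.Agent.W619.PQ.over_trans hQ₄ hP'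
    obtain ⟨rfl, -⟩ := Pool.Agent.Y172.over_unique' h1 h2
    refine ⟨Q₄, a₅, hP', ?_⟩
    by_contra hcon
    push Not at hcon
    obtain ⟨i, hi, hi2⟩ := Pool.Agent.W603.PV.exists_pord Q (f := x₂) ⟨j0, by
      intro h
      have h3 : x₂ j0 = 1 := Subtype.ext (Subtype.ext hx0)
      rw [h3] at h
      exact one_ne_zero h⟩
    have h3 := reg_values hφ hQ₄ hcon hb (I := Finsupp.single i (W.X.d b))
      (Finsupp.degree_single _ _) (v := W.X.mon x b (Finsupp.single i (W.X.d b)))
      (hmonF b _ hb (Finsupp.degree_single _ _))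
    have h4 : W.X.mon x b (Finsupp.single i (W.X.d b)) =
        algebraMap L₂ F (W.X.mon x₂ b (Finsupp.single i (W.X.d b))) :=
      (mon_map (L₂.val.restrictScalars K) x₂ b (Finsupp.single i (W.X.d b))).symm
    rw [h4] at h3
    have h5 := hpt2.notMem b hb
    have h6 : W.X.mon x₂ b (Finsupp.single i (W.X.d b)) ≠ 0 := by
      unfold GenericPair.mon
      rw [prod_single]
      exact div_ne_zero (pow_ne_zero _ hi) h5
    rcases h3 with h3 | h3
    · exact ((_root_.map_ne_zero _).2 h6) h3
    · rw [hQ₃.2] at h3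
      have h7 : 0 ≤ Q.ord (W.X.mon x₂ b (Finsupp.single i (W.X.d b))) := by
        have h8 : (0 : ℤ) < a₃ := by exact_mod_cast hQ₃.1
        by_contra h9
        push Not at h9
        nlinarith
      unfold GenericPair.mon at h7
      rw [prod_single, Q.ord_div (pow_ne_zero _ hi) h5, Q.ord_pow, hi2] at h7
      omega
  have hx1 : ∀ j, hgt K (x j) ≤ ((r * e) * A₀ : ℕ) * χ := by
    intro j
    have h1 : x j = algebraMap L₂ F (x₂ j) := rfl
    rw [h1, hgt_algebraMap]
    have h2 : (Module.finrank L₂ F : ℤ) ≤ (r * e : ℕ) := by exact_mod_cast hL₂r'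
    refine (mul_le_mul h2 (hx2 j) (hgt_nonneg _) (by positivity)).trans (le_of_eq ?_)
    push_cast
    ring
  rintro y ⟨b, I, hb, hI, hy⟩
  have h1 : φ' y = W.X.mon x b I := by
    apply Subtype.ext
    change φ y = _
    rw [← hmonF b I hb hI]
    congr 1
    exact Subtype.ext (by rw [hy, W.Y_val hb hI])
  rw [h1]
  refine (mon_hgt (by positivity) hx1 b hI).trans (le_of_eq ?_)
  push_cast
  ring

end

end Pool.Agent.N95.HK
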