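import Pool.Agent.N95.HK.Lv

/-!
The exactness of the bound: maps of unbounded degree from the multiplicative group.
-/

set_option autoImplicit false
set_option linter.unusedSectionVars false
set_option linter.overlappingInstances false

open FF IntermediateField Polynomial

namespace Pool.Agent.N95.HK

open Pool.Agent.N111.GJ
open Pool.Agent.Y735.LB (prod_monic prod_eval)
open Pool.Agent.W603.PV Pool.Agent.W603.LV

variable {k K : Type} [Field k] [Field K] [IsAlgClosed K] [CharZero K] [Algebra k K]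

/-- **The multiplicative group.** -/
theorem gm_corr (X : GenericPair k K) (hV : X.V = ∅) (hn : 1 ≤ X.n) (hd : ∀ c ∈ X.C, 1 ≤ X.d c)
    (hC : ∑ c ∈ X.C, (X.d c + 1) ≤ 2 * (X.n - 1)) {r : ℕ} (hr : 0 < r)
    (hs : X.size + 2 ≤ 2 * X.n + 2 * r) :
    ∃ (L : Type) (_ : Field L) (_ : Algebra K L) (σ : L), Transcendental K σ ∧ K⟮σ⟯ = ⊤ ∧
      ∃ W : Corr k K (cv σ fun _ : Fin 1 => (Polynomial.X : K[X])), W.X = X ∧ W.FibresLE r ∧
        W.QuasiFinite := by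
  classical
  obtain ⟨Wl, hW1, hW2, hW3⟩ := Pool.Agent.Y735.LE.exists_line hn hd hC X.F_form X.I₀ X.coeff_ne
    X.generic
  have hs' : 2 + (X.size - 2 * X.n) ≤ 2 * r := by omega
  obtain ⟨x, y, t, hli, hx, hy, hxb, htN, ht⟩ := Pool.Agent.Y735.LB.exists_line (N := 2 * r)
    X.F_form hW1 (hW3.trans (by
      rw [Nat.cast_le]
      exact hs'))
  obtain ⟨B0, hB0t, hB0⟩ := Finset.exists_subset_card_eq (s := t) (n := r) (by omega)
  obtain ⟨B1, hB1e⟩ : ∃ B1, B1 = t \ B0 := ⟨_, rfl⟩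
  have hB1 : B1.card = r := by
    rw [hB1e, Finset.card_sdiff_of_subset hB0t]
    omega
  have h01 : ∀ β ∈ B0, β ∉ B1 := fun β h0 h1 => by
    rw [hB1e] at h1
    exact (Finset.mem_sdiff.1 h1).2 h0
  have h10 : ∀ β ∈ B1, β ∉ B0 := fun β h1 h0 => h01 β h0 h1
  have htm : ∀ β ∈ t, β ∈ B0 ∨ β ∈ B1 := by
    intro β hβ
    by_cases h0 : β ∈ B0
    · exact Or.inl h0
    · right
      rw [hB1e]
      exact Finset.mem_sdiff.2 ⟨hβ, h0⟩
  obtain ⟨f, hf⟩ : ∃ f, f = ∏ β ∈ B0, (Polynomial.X - Polynomial.C β) := ⟨_, rfl⟩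
  obtain ⟨g, hg⟩ : ∃ g, g = ∏ β ∈ B1, (Polynomial.X - Polynomial.C β) := ⟨_, rfl⟩
  obtain ⟨hfm, hfd⟩ := prod_monic B0
  obtain ⟨hgm, hgd⟩ := prod_monic B1
  have hfe := prod_eval B0
  have hge := prod_eval B1
  rw [← hf] at hfm hfd hfe
  rw [← hg] at hgm hgd hge
  obtain ⟨β₀, hβ₀⟩ : B1.Nonempty := by
    rw [← Finset.card_pos, hB1]
    exact hr
  have ha : ∀ j : Fin 1, (fun _ => Polynomial.X : Fin 1 → K[X]) j ≠ 0 := fun _ =>
    Polynomial.X_ne_zero
  obtain ⟨L, σ, hσ, htop, W, hWX, hWd, hWq⟩ := line_corr (F := RatFunc K)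
    RatFunc.transcendental_X RatFunc.adjoin_X X hV hli
    (fun c hc s => hW2 c hc _ (Wl.add_mem (Wl.smul_mem _ hx) hy)) hxb ht
    (r := r) (f := f) (g := g) (by rw [hfd, hB0]) (by rw [hgd, hB1])
    ⟨β₀, (hge β₀).2 hβ₀, fun h => h10 β₀ hβ₀ ((hfe β₀).1 h)⟩ hgm.ne_zero
    (a := fun _ : Fin 1 => Polynomial.X) ha (fun β hβ => by
      rcases htm β hβ with h | h
      · refine ⟨-(g.eval β), neg_ne_zero.2 fun h0 => h01 β h ((hge β).1 h0), Or.inr ⟨0, ?_⟩⟩
        rw [(hfe β).2 h, map_zero, zero_sub, map_neg, neg_mul]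
      · refine ⟨f.eval β, fun h0 => h10 β h ((hfe β).1 h0), Or.inl ?_⟩
        rw [(hge β).2 h, map_zero, zero_mul, sub_zero])
  have hinfK : Infinite K := IsAlgClosed.instInfinite
  exact ⟨L, inferInstance, inferInstance, σ, hσ, htop, W, hWX,
    FibresLE.mono (fib_normal fun z hz => cv_normal hσ htop ha hz) hWd, hWq⟩

/-- **Maps of unbounded degree from the multiplicative group to itself.** -/
theorem gm_maps {L : Type} [Field L] [Algebra K L] {σ : L} (hσ : Transcendental K σ)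
    (htop : K⟮σ⟯ = ⊤) : ∃ (_ : IsFF K L) (S : Set (Place K L)), S.Finite ∧
      ∀ G : MvPolynomial (Fin 2) K,
        MvPolynomial.aeval (cv σ fun _ : Fin 1 => (Polynomial.X : K[X])) G ≠ 0 → ∀ n : ℕ,
        ∃ f : Fin 2 → L, MapFrom K (cv σ fun _ : Fin 1 => (Polynomial.X : K[X])) S f ∧
          (∃ j, Transcendental K (f j)) ∧ MvPolynomial.aeval f G ≠ 0 ∧
          (n : ℤ) ≤ pht K (Fin.cons 1 f : Fin 3 → L) := by
  classical
  have hfd : FiniteDimensional K⟮σ⟯ L := by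
    rw [htop]
    refine ⟨⟨{1}, ?_⟩⟩
    rw [eq_top_iff]
    intro z _
    rw [Finset.coe_singleton, Submodule.mem_span_singleton]
    exact ⟨⟨z, IntermediateField.mem_top⟩, by rw [Algebra.smul_def, mul_one]; rfl⟩
  have hFF : IsFF K L := IsFF.of_finite hσ hfd
  have ha : ∀ j : Fin 1, (fun _ => Polynomial.X : Fin 1 → K[X]) j ≠ 0 := fun _ =>
    Polynomial.X_ne_zero
  refine ⟨hFF, {P | P.ord σ ≠ 0}, finite_support (k := K) σ, fun G hG n => ?_⟩
  have hσ0 : σ ≠ 0 := by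
    rintro rfl
    exact hσ isAlgebraic_zero
  obtain ⟨τ, hτ⟩ : ∃ τ, τ = σ ^ (n + 1) := ⟨_, rfl⟩
  have hτt : Transcendental K τ := by
    rw [hτ]
    exact hσ.pow (Nat.succ_pos n)
  have hτ0 : τ ≠ 0 := by rw [hτ]; exact pow_ne_zero _ hσ0
  have hτX : ∀ j : Fin 1, aeval τ ((fun _ => Polynomial.X : Fin 1 → K[X]) j) ≠ 0 := fun j => by
    rw [aeval_X]
    exact hτ0
  refine ⟨cv τ fun _ : Fin 1 => (Polynomial.X : K[X]), ⟨fun P hP => cv_pt hσ ha hτX hP,
    fun P Q e hPQ hP j => ?_⟩, ⟨0, hτt⟩, ?_, ?_⟩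
  · have h1 : P.ord σ = 0 := by
      by_contra h
      exact hP h
    have h2 : Q.ord τ = 0 := by
      have h3 := hPQ.2 σ
      rw [h1, mul_zero] at h3
      have h4 : Q.ord σ = 0 := h3
      rw [hτ, Q.ord_pow, h4, mul_zero]
    rcases Fin.eq_zero_or_eq_succ j with rfl | ⟨j, rfl⟩
    · exact Or.inr h2.ge
    · refine Or.inr ?_
      change 0 ≤ Q.ord ((aeval τ (Polynomial.X : K[X]))⁻¹)
      rw [aeval_X, Q.ord_inv, h2]
      exact le_rfl
  · obtain ⟨m, Q, h⟩ := cv_rel (fun _ : Fin 1 => (Polynomial.X : K[X])) G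
    have hQ : Q ≠ 0 := by
      intro h0
      have h1 := h L σ fun j => aeval_ne hσ (ha j)
      rw [h0, map_zero] at h1
      refine (mul_ne_zero hG (pow_ne_zero _ ?_)) h1
      exact aeval_ne hσ (Finset.prod_ne_zero_iff.2 fun j _ => ha j)
    intro h0
    have h1 := h L τ hτX
    rw [h0, zero_mul] at h1
    exact aeval_ne hτt hQ h1.symm
  · have h1 := Pool.Agent.W603.CX.hgt_le_pht (k := K)
      (f := (Fin.cons 1 (cv τ fun _ : Fin 1 => (Polynomial.X : K[X])) : Fin 3 → L))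
      (j := 1) (l := 0) hτ0 one_ne_zero
    refine le_trans ?_ h1
    change (n : ℤ) ≤ hgt K (τ / 1)
    rw [div_one, hτ, hgt_pow hσ0]
    have h2 : 1 ≤ hgt K σ := by
      rw [hgt_eq_finrank hσ]
      exact_mod_cast (Module.finrank_pos : 0 < Module.finrank K⟮σ⟯ L)
    push_cast
    nlinarith

end Pool.Agent.N95.HK
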