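import Pool.Agent.TH145.MW.Cramer
import Pool.Agent.TH145.MG.Bdd
import Pool.Agent.N111.GI.Han

/-!
Heights of the elements of a finite extension of a function field, in terms of the heights of the
ratios of traces (Hankel determinants), uniformly in the fields.
-/

set_option autoImplicit false
set_option linter.unusedSectionVars false

open FF Pool.Agent.W603.LV Pool.Agent.W603.PV Pool.Agent.TH145
open IntermediateField Module

namespace Pool.Agent.N95.HK

/-- heights of determinants -/
theorem hgt_det_unif (k : Type) [Field k] [CharZero k] (N : ℕ) :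
    ∃ C : ℕ, ∀ (L : Type) [Field L] [Algebra k L] [IsFF k L] (M : Matrix (Fin N) (Fin N) L)
      (H : ℤ), (∀ i j, hgt k (M i j) ≤ H) → hgt k M.det ≤ C * H := by
  classical
  obtain ⟨c, hc⟩ : ∃ c : MvPolynomial (Fin N × Fin N) k, c =
    (Matrix.mvPolynomialX (Fin N) (Fin N) k).det := ⟨_, rfl⟩
  refine ⟨c.totalDegree * Fintype.card (Fin N × Fin N), ?_⟩
  intro L _ _ _ M H hM
  have h1 : M.det = MvPolynomial.aeval (fun p : Fin N × Fin N => M p.1 p.2) c := by
    rw [hc, AlgHom.map_det, Matrix.mvPolynomialX_mapMatrix_aeval]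
  rw [h1]
  push_cast
  rw [mul_assoc]
  exact MW.hgt_poly c _ fun p => hM p.1 p.2

/-- **The height of a generator**, in terms of the ratios of the traces. -/
theorem hgt_of_trace (k : Type) [Field k] [IsAlgClosed k] [CharZero k] (n : ℕ) :
    ∃ C : ℕ, ∀ (L K : Type) [Field L] [Field K] [Algebra k L] [Algebra k K] [Algebra L K]
      [IsScalarTower k L K] [FiniteDimensional L K] [IsFF k L] [IsFF k K], finrank L K = n →
      ∀ (u h : K) (c : L) (H : ℤ), adjoin L {u} = ⊤ → h ≠ 0 → c ≠ 0 → 0 ≤ H →
      (∀ i < 2 * n, hgt k (Algebra.trace L K (h * u ^ i) / c) ≤ H) → hgt k u ≤ C * H := by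
  classical
  obtain ⟨C, hC⟩ := hgt_det_unif k n
  refine ⟨n * (n * (n * (2 * C + 1))), ?_⟩
  intro L K _ _ _ _ _ _ _ _ _ hn u h c H hu hh hc hH hE
  have hcz : CharZero L := charZero_of_injective_algebraMap (algebraMap k L).injective
  have hpos : 0 < n := by rw [← hn]; exact finrank_pos
  have hint : IsIntegral L u := Algebra.IsIntegral.isIntegral u
  have hdeg : (minpoly L u).natDegree = n := by
    rw [← hn, ← IntermediateField.adjoin.finrank hint, hu, IntermediateField.finrank_top']
  obtain ⟨e, he⟩ : ∃ e : ℕ → L, ∀ i, e i = Algebra.trace L K (h * u ^ i) / c := ⟨_, fun _ => rfl⟩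
  have heT : ∀ i, Algebra.trace L K (h * u ^ i) = c * e i := fun i => by
    rw [he]
    field_simp
  have heH : ∀ i < 2 * n, hgt k (e i) ≤ H := fun i hi => by
    rw [he]
    exact hE i hi
  -- the matrix
  let M : Matrix (Fin n) (Fin n) L := Matrix.of fun i j => e (i + j)
  have hMe : ∀ i j : Fin n, Algebra.trace L K (h * u ^ ((i : ℕ) + j)) = c * M i j := fun i j =>
    heT _
  have hMH : ∀ i j, hgt k (M i j) ≤ H := fun i j => heH _ (by
    have := i.2
    have := j.2
    omega)
  have hdet : M.det ≠ 0 := by
    intro h0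
    obtain ⟨v, hv0, hv⟩ := Matrix.exists_mulVec_eq_zero_iff.2 h0
    apply hv0
    have h1 : ∑ j : Fin n, v j • u ^ (j : ℕ) = 0 := by
      have h2 : h * ∑ j : Fin n, v j • u ^ (j : ℕ) = 0 := by
        apply Pool.Agent.N111.GI.eq_zero_of_trace hu
        intro i hi
        rw [hn] at hi
        rw [Finset.mul_sum, Finset.sum_mul, map_sum]
        have h3 : ∀ j : Fin n, Algebra.trace L K (h * (v j • u ^ (j : ℕ)) * u ^ i) =
            c * (M ⟨i, hi⟩ j * v j) := by
          intro j
          have h4 : h * (v j • u ^ (j : ℕ)) * u ^ i = v j • (h * u ^ (i + (j : ℕ))) := by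
            rw [pow_add, mul_smul_comm, smul_mul_assoc]
            ring_nf
          rw [h4, map_smul, hMe ⟨i, hi⟩ j, smul_eq_mul]
          ring
        have h5 := congrFun hv ⟨i, hi⟩
        rw [Matrix.mulVec, dotProduct] at h5
        rw [Finset.sum_congr rfl fun j _ => h3 j, ← Finset.mul_sum, h5, Pi.zero_apply, mul_zero]
      exact (mul_eq_zero.1 h2).resolve_left hh
    have h2 : (∑ j : Fin n, Polynomial.monomial (j : ℕ) (v j) : Polynomial L) = 0 := by
      by_contra h3
      have h4 : Polynomial.aeval u (∑ j : Fin n, Polynomial.monomial (j : ℕ) (v j)) = 0 := by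
        rw [map_sum]
        rw [← h1]
        refine Finset.sum_congr rfl fun j _ => ?_
        rw [Polynomial.aeval_monomial, Algebra.smul_def]
      have h5 := Polynomial.natDegree_le_natDegree (minpoly.degree_le_of_ne_zero L u h3 h4)
      have h6 : (∑ j : Fin n, Polynomial.monomial (j : ℕ) (v j) : Polynomial L).natDegree < n := by
        apply Nat.lt_of_le_of_lt (Polynomial.natDegree_sum_le_of_forall_le _ _ (n := n - 1) ?_)
        · omega
        · intro j _
          refine (Polynomial.natDegree_monomial_le _).trans ?_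
          have := j.2
          omega
      rw [hdeg] at h5
      omega
    funext j
    have h3 := congrArg (fun p => p.coeff (j : ℕ)) h2
    simp only [Polynomial.finsetSum_coeff, Polynomial.coeff_monomial, Polynomial.coeff_zero] at h3
    rw [Finset.sum_eq_single j] at h3
    · simpa using h3
    · intro i _ hij
      rw [if_neg]
      intro h4
      exact hij (Fin.ext h4)
    · intro h4
      exact absurd (Finset.mem_univ _) h4
  -- the coefficients of the minimal polynomial
  obtain ⟨b, hbd⟩ : ∃ b : Fin n → L, ∀ j, b j =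
    ∑ i : Fin n, M.adjugate j i * e ((i : ℕ) + n) / M.det := ⟨_, fun _ => rfl⟩
  have hb : ∀ i : Fin n, ∑ j, M i j * b j = e ((i : ℕ) + n) := by
    intro i
    have h1 : b = (M.det)⁻¹ • M.adjugate.mulVec fun i => e ((i : ℕ) + n) := by
      funext j
      rw [hbd, Pi.smul_apply, Matrix.mulVec, dotProduct, smul_eq_mul, Finset.mul_sum]
      exact Finset.sum_congr rfl fun i _ => by rw [div_eq_inv_mul]
    have h2 : M.mulVec b = fun i : Fin n => e ((i : ℕ) + n) := by
      rw [h1, Matrix.mulVec_smul, Matrix.mulVec_mulVec, Matrix.mul_adjugate, Matrix.smul_mulVec,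
        Matrix.one_mulVec, smul_smul, inv_mul_cancel₀ hdet, one_smul]
    exact congrFun h2 i
  have hs1 : ∀ a b : Fin n, hgt k ((Pi.single a 1 : Fin n → L) b) = 0 := by
    intro a b
    by_cases h : b = a
    · rw [h, Pi.single_eq_same, hgt_one]
    · rw [Pi.single_eq_of_ne h, hgt_zero]
  have hbH : ∀ j, hgt k (b j) ≤ n * ((2 * C + 1) * H) := by
    intro j
    rw [hbd]
    refine (MW.hgt_sum_le _ _).trans ?_
    refine (Finset.sum_le_sum (g := fun _ => (2 * (C : ℤ) + 1) * H) fun i _ => ?_).trans
      (le_of_eq ?_)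
    · rw [div_eq_mul_inv]
      refine (MW.hgt_mul_le _ _).trans ?_
      rw [hgt_inv]
      have h1 := hC L M H hMH
      have h2 : hgt k (M.adjugate j i) ≤ C * H := by
        rw [Matrix.adjugate_apply]
        apply hC
        intro a d
        rw [Matrix.updateRow_apply]
        split_ifs with h
        · rw [hs1]; exact hH
        · exact hMH a d
      have h3 := MW.hgt_mul_le (k := k) (M.adjugate j i) (e ((i : ℕ) + n))
      have h4 := heH ((i : ℕ) + n) (by have := i.2; omega)
      linarith
    · rw [Finset.sum_const, nsmul_eq_mul, Finset.card_univ, Fintype.card_fin]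
  have hrel : u ^ n = ∑ j : Fin n, algebraMap L K (b j) * u ^ (j : ℕ) := by
    have h1 : h * (u ^ n - ∑ j : Fin n, algebraMap L K (b j) * u ^ (j : ℕ)) = 0 := by
      apply Pool.Agent.N111.GI.eq_zero_of_trace hu
      intro i hi
      rw [hn] at hi
      have h2 : h * (u ^ n - ∑ j : Fin n, algebraMap L K (b j) * u ^ (j : ℕ)) * u ^ i =
          h * u ^ (i + n) - ∑ j : Fin n, (b j) • (h * u ^ (i + (j : ℕ))) := by
        rw [mul_sub, sub_mul, Finset.mul_sum, Finset.sum_mul]
        congr 1
        · rw [pow_add]
          ring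
        · refine Finset.sum_congr rfl fun j _ => ?_
          rw [pow_add, Algebra.smul_def]
          ring
      rw [h2, map_sub, map_sum]
      have h3 : ∀ j : Fin n, Algebra.trace L K (b j • (h * u ^ (i + (j : ℕ)))) =
          c * (M ⟨i, hi⟩ j * b j) := by
        intro j
        rw [map_smul, hMe ⟨i, hi⟩ j, smul_eq_mul]
        ring
      rw [Finset.sum_congr rfl fun j _ => h3 j, ← Finset.mul_sum, heT (i + n), hb ⟨i, hi⟩, sub_self]
    exact sub_eq_zero.1 ((mul_eq_zero.1 h1).resolve_left hh)
  refine (MG.root_hgt n (fun j => algebraMap L K (b j)) u hrel).trans ?_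
  refine (Finset.sum_le_sum (g := fun _ => (n : ℤ) * (n * ((2 * C + 1) * H))) fun j _ => ?_).trans
    (le_of_eq ?_)
  · rw [hgt_algebraMap (k := k) (F := L) (L := K) (b j), hn]
    exact mul_le_mul_of_nonneg_left (hbH j) (by positivity)
  · rw [Finset.sum_const, nsmul_eq_mul, Finset.card_univ, Fintype.card_fin]
    push_cast
    ring

/-- **The heights of the coordinates of a point**, in terms of the ratios of the traces. -/
theorem hgt_coords (k : Type) [Field k] [IsAlgClosed k] [CharZero k] (n N : ℕ) :
    ∃ C : ℕ, ∀ (L K : Type) [Field L] [Field K] [Algebra k L] [Algebra k K] [Algebra L K]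
      [IsScalarTower k L K] [FiniteDimensional L K] [IsFF k L] [IsFF k K], finrank L K = n →
      ∀ (x : Fin N → K) (j0 : Fin N) (h : K) (c : L) (H : ℤ), x j0 = 1 →
      adjoin L (Set.range x) = ⊤ → h ≠ 0 → c ≠ 0 → 0 ≤ H →
      (∀ f : Fin (2 * n - 1) → Fin N, hgt k (Algebra.trace L K ((∏ i, x (f i)) * h) / c) ≤ H) →
      ∀ j, hgt k (x j) ≤ C * H := by
  classical
  obtain ⟨C, hC⟩ := hgt_of_trace k n
  obtain ⟨m, hm⟩ : ∃ m, m = 2 * n - 1 := ⟨_, rfl⟩
  refine ⟨N * (C * N ^ m), ?_⟩
  intro L K _ _ _ _ _ _ _ _ _ hn x j0 h c H hj0 hgen hh hc hH hT j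
  rw [← hm] at hT
  have hpos : 0 < n := by rw [← hn]; exact finrank_pos
  have hczL : CharZero L := charZero_of_injective_algebraMap (algebraMap k L).injective
  have hinfk : Infinite k := IsAlgClosed.instInfinite
  -- the values
  have hval : ∀ (t : k), adjoin L {∑ j : Fin N,
      algebraMap L K (algebraMap k L (t ^ (j : ℕ))) * x j} = ⊤ →
      hgt k (∑ j : Fin N, algebraMap L K (algebraMap k L (t ^ (j : ℕ))) * x j) ≤
        C * (N ^ m * H) := by
    intro t ht
    refine hC L K hn _ h c (N ^ m * H) ht hh hc (by positivity) fun i hi => ?_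
    -- the expansion
    obtain ⟨w, hw⟩ : ∃ w : Fin m → Fin N → k, ∀ a b, w a b =
      if (a : ℕ) < i then t ^ (b : ℕ) else if b = j0 then 1 else 0 := ⟨_, fun _ _ => rfl⟩
    have h1 : ∏ a : Fin m, ∑ b : Fin N, algebraMap L K (algebraMap k L (w a b)) * x b =
        (∑ j : Fin N, algebraMap L K (algebraMap k L (t ^ (j : ℕ))) * x j) ^ i := by
      have h2 : ∀ a : Fin m, ∑ b : Fin N, algebraMap L K (algebraMap k L (w a b)) * x b =
          if (a : ℕ) < i then
            (∑ j : Fin N, algebraMap L K (algebraMap k L (t ^ (j : ℕ))) * x j) else 1 := by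
        intro a
        by_cases ha : (a : ℕ) < i
        · rw [if_pos ha]
          exact Finset.sum_congr rfl fun b _ => by rw [hw, if_pos ha]
        · rw [if_neg ha, Finset.sum_eq_single j0]
          · rw [hw, if_neg ha, if_pos rfl, map_one, map_one, one_mul, hj0]
          · intro b _ hb
            rw [hw, if_neg ha, if_neg hb, map_zero, map_zero, zero_mul]
          · intro hb
            exact absurd (Finset.mem_univ _) hb
      rw [Finset.prod_congr rfl fun a _ => h2 a, Finset.prod_ite, Finset.prod_const_one, mul_one,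
        Finset.prod_const]
      congr 1
      have h3 : (Finset.univ.filter fun a : Fin m => (a : ℕ) < i).card = i := by
        have hi' : i ≤ m := by omega
        have h4 : (Finset.univ.filter fun a : Fin m => (a : ℕ) < i) =
            Finset.univ.map (Fin.castLEEmb hi') := by
          ext a
          simp only [Finset.mem_filter, Finset.mem_univ, true_and, Finset.mem_map,
            Fin.castLEEmb_apply]
          constructor
          · intro ha
            exact ⟨⟨a, ha⟩, Fin.ext rfl⟩
          · rintro ⟨b, rfl⟩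
            exact b.2
        rw [h4, Finset.card_map, Finset.card_univ, Fintype.card_fin]
      exact h3
    rw [← h1, Finset.prod_univ_sum, Fintype.piFinset_univ]
    have h2 : Algebra.trace L K (h * ∑ f : Fin m → Fin N,
        ∏ a, algebraMap L K (algebraMap k L (w a (f a))) * x (f a)) / c =
        ∑ f : Fin m → Fin N, algebraMap k L (∏ a, w a (f a)) *
          (Algebra.trace L K ((∏ a, x (f a)) * h) / c) := by
      rw [Finset.mul_sum, map_sum, Finset.sum_div]
      refine Finset.sum_congr rfl fun f _ => ?_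
      have h3 : h * ∏ a, algebraMap L K (algebraMap k L (w a (f a))) * x (f a) =
          (algebraMap k L (∏ a, w a (f a))) • ((∏ a, x (f a)) * h) := by
        rw [Finset.prod_mul_distrib, Algebra.smul_def, map_prod, map_prod]
        ring
      rw [h3, map_smul, smul_eq_mul, mul_div_assoc]
    rw [h2]
    refine (MW.hgt_sum_le _ _).trans ?_
    refine (Finset.sum_le_sum (g := fun _ => H) fun f _ => ?_).trans (le_of_eq ?_)
    · refine (MW.hgt_mul_le _ _).trans ?_
      rw [MG.hgt_const, zero_add]
      exact hT f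
    · rw [Finset.sum_const, nsmul_eq_mul, Finset.card_univ, Fintype.card_fun, Fintype.card_fin,
        Fintype.card_fin]
      push_cast
      rfl
  -- distinct values of the parameter
  have hbad := Pool.Agent.N111.GI.finite_bad (k := k) hgen
  have hinf : ({t : k | adjoin L {∑ j : Fin N, algebraMap L K (algebraMap k L (t ^ (j : ℕ))) * x j} ≠
      ⊤}ᶜ : Set k).Infinite := hbad.infinite_compl
  let τ : ℕ ↪ _ := hinf.natEmbedding
  let t : Fin N → k := fun i => (τ i : k)
  have ht : Function.Injective t := by
    intro a b hab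
    exact Fin.ext (τ.injective (Subtype.ext hab))
  have hgood : ∀ i, hgt k (∑ j : Fin N, algebraMap L K (algebraMap k L (t i ^ (j : ℕ))) * x j) ≤
      C * (N ^ m * H) := fun i => hval _ (not_not.1 (τ i).2)
  -- the inverse of the Vandermonde matrix
  obtain ⟨V, hV⟩ : ∃ V : Matrix (Fin N) (Fin N) k, V = Matrix.vandermonde t := ⟨_, rfl⟩
  have hdet : V.det ≠ 0 := by
    rw [hV]
    exact Matrix.det_vandermonde_ne_zero_iff.2 ht
  have hinv : V⁻¹ * V = 1 := Matrix.nonsing_inv_mul _ (isUnit_iff_ne_zero.2 hdet)
  have hx : x j = ∑ i, algebraMap k K (V⁻¹ j i) *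
      ∑ l : Fin N, algebraMap L K (algebraMap k L (t i ^ (l : ℕ))) * x l := by
    have h1 : ∀ l : Fin N, ∑ i, algebraMap k K (V⁻¹ j i) *
        algebraMap L K (algebraMap k L (t i ^ (l : ℕ))) = if j = l then 1 else 0 := by
      intro l
      have h2 := congrFun (congrFun hinv j) l
      rw [Matrix.mul_apply, Matrix.one_apply] at h2
      have h3 := congrArg (fun z => algebraMap k K z) h2
      simp only [map_sum, map_mul, hV, Matrix.vandermonde_apply] at h3
      rw [hV]
      simp only [← IsScalarTower.algebraMap_apply k L K]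
      rw [h3]
      split_ifs <;> simp
    simp_rw [Finset.mul_sum]
    rw [Finset.sum_comm]
    have h2 : ∀ l : Fin N, ∑ i, algebraMap k K (V⁻¹ j i) *
        (algebraMap L K (algebraMap k L (t i ^ (l : ℕ))) * x l) =
        (if j = l then 1 else 0) * x l := by
      intro l
      rw [← h1 l, Finset.sum_mul]
      exact Finset.sum_congr rfl fun i _ => by ring
    rw [Finset.sum_congr rfl fun l _ => h2 l]
    simp
  rw [hx]
  refine (MW.hgt_sum_le _ _).trans ?_
  refine (Finset.sum_le_sum (g := fun _ => (C : ℤ) * (N ^ m * H)) fun i _ => ?_).trans (le_of_eq ?_)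
  · refine (MW.hgt_mul_le _ _).trans ?_
    rw [MG.hgt_const, zero_add]
    exact hgood i
  · rw [Finset.sum_const, nsmul_eq_mul, Finset.card_univ, Fintype.card_fin]
    push_cast
    ring

end Pool.Agent.N95.HK
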