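import Pool.Agent.N95.HK.Han
import Pool.Agent.N95.GP.Cur

/-!
Heights of the points of bounded degree of generic logarithmic pairs over function fields of one
variable: a linear bound in the Euler characteristic, uniform in the function field.
-/

set_option autoImplicit false
set_option linter.unusedSectionVars false
set_option linter.overlappingInstances false

open MvPolynomial FF Pool.Agent.W603.LV Pool.Agent.W603.PV
open Pool.Agent.W602.GT Pool.Agent.TH145.MG Pool.Agent.TH145.GC
open Pool.Agent.Y735.R (hgt_le_of_ge)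
open Pool.Agent.N111.GI

namespace Pool.Agent.N95.HK

section ratio

variable {k K : Type} [Field k] [IsAlgClosed k] [CharZero k] [Field K] [Algebra k K] [IsFF k K]

/-- a regular derivation, multiplied by a uniformizer, is logarithmic -/
theorem log_of_unif {P : Place k K} {D : Derivation k K K} (hD : DerReg P D) {π : K}
    (hπ : P.ord π = 1) : DerLog P (π • D) := by
  intro x
  by_cases hx : x = 0
  · rw [hx, map_zero, zero_div]
    exact P.reg_zero
  obtain ⟨u, hu, hu0, -, h⟩ := logder_eq P D hπ hx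
  have hπ0 : π ≠ 0 := by
    rintro rfl
    rw [P.ord_zero] at hπ
    omega
  have h1 : (π • D) x / x = π * (D u / u) + algebraMap k K (P.ord x : k) * D π := by
    rw [Derivation.smul_apply, smul_eq_mul, mul_div_assoc, h, mul_add, map_intCast]
    field_simp
  rw [h1]
  have h2 : Ge P 0 (D u / u) := ge_logder_reg hD hu hu0
  have h3 : Ge P 0 π := Or.inr (by omega)
  have h4 : Ge P 0 (D π) := hD π h3
  have h5 := h3.mul h2
  have h6 : Ge P 0 (algebraMap k K (P.ord x : k)) := Ge.const _
  have h7 := h6.mul h4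
  rw [zero_add] at h5 h7
  exact h5.add h7

open Classical in
/-- The divisor of a form with at most logarithmic poles in a set. -/
theorem ord_sec {y : Fin 1 → K} {E : Fin 1 → Derivation k K K}
    (hE : ∀ i j, E i (y j) = if i = j then 1 else 0) {T : K} (hT : T ≠ 0) (P : Place k K)
    {Bd : Place k K → Prop} (h : SecAt Bd P (trForm y T)) :
    vo P (E 0) - (if Bd P then 1 else 0) ≤ P.ord T := by
  by_cases hP : Bd P
  swap
  · rw [if_neg hP, sub_zero]
    exact Pool.Agent.N95.GP.ord_reg hE hT P (h.2 hP)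
  rw [if_pos hP]
  have hE0 : E 0 ≠ 0 := by
    intro h0
    have h1 := hE 0 0
    rw [h0, if_pos rfl] at h1
    exact zero_ne_one h1
  have hπ := ord_unif P
  have h0 := der_pi_ne_zero hE0 P hπ
  have hπ0 : unif P ≠ 0 := by
    intro h2
    rw [h2, P.ord_zero] at hπ
    omega
  have hreg : DerReg P ((E 0 (unif P))⁻¹ • E 0) := fun f hf =>
    der_reg P hπ ((E 0 (unif P))⁻¹ • E 0) (by simp [h0]) hf
  have h1 := h.1 (fun _ => unif P • ((E 0 (unif P))⁻¹ • E 0)) fun _ => log_of_unif hreg hπ
  have h2 : trForm y T (fun _ => unif P • ((E 0 (unif P))⁻¹ • E 0)) =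
      unif P * ((E 0 (unif P))⁻¹ * T) := by
    rw [trForm, Matrix.det_fin_one, Matrix.of_apply, Derivation.smul_apply, Derivation.smul_apply,
      hE, if_pos rfl, smul_eq_mul, smul_eq_mul, mul_one, mul_assoc]
  rw [h2] at h1
  rcases h1 with h1 | h1
  · exact absurd h1 (mul_ne_zero hπ0 (mul_ne_zero (inv_ne_zero h0) hT))
  · rw [P.ord_mul hπ0 (mul_ne_zero (inv_ne_zero h0) hT), P.ord_mul (inv_ne_zero h0) hT, P.ord_inv,
      hπ] at h1
    have h3 : vo P (E 0) = P.ord (E 0 (unif P)) := rfl
    omega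

/-- The height of the ratio of two logarithmic forms. -/
theorem hgt_ratio_log {y : Fin 1 → K} {E : Fin 1 → Derivation k K K}
    (hE : ∀ i j, E i (y j) = if i = j then 1 else 0) {T c : K} (hc : c ≠ 0)
    {S : Set (Place k K)} (hS : S.Finite)
    (h1 : ∀ P, SecAt (fun P => P ∈ S) P (trForm (k := k) y T))
    (h2 : ∀ P, SecAt (fun P => P ∈ S) P (trForm (k := k) y c)) :
    hgt k (T / c) ≤ canDeg k K + S.ncard := by
  classical
  have hE0 : E 0 ≠ 0 := by
    intro h0
    have h1 := hE 0 0
    rw [h0, if_pos rfl] at h1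
    exact zero_ne_one h1
  obtain ⟨ε, hε⟩ : ∃ ε : Place k K → ℤ, ∀ P, ε P = if P ∈ S then 1 else 0 := ⟨_, fun _ => rfl⟩
  have hε0 : ∀ P ∉ S, ε P = 0 := fun P hP => by rw [hε, if_neg hP]
  have hc1 : ∀ P, vo P (E 0) - ε P ≤ P.ord c := fun P => by
    rw [hε]
    have := ord_sec hE hc P (h2 P)
    convert this using 2
  have hεf : (Function.support ε).Finite := hS.subset fun P hP => by
    by_contra h
    exact hP (hε0 P h)
  have hfin : {v : Place k K | v.ord c - vo v (E 0) + ε v ≠ 0}.Finite := by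
    refine (((finite_support (k := k) c).union (vo_finite hE0)).union hεf).subset fun P hP => ?_
    by_contra hcon
    simp only [Set.mem_union, not_or] at hcon
    have h3 : P.ord c = 0 := by
      by_contra h
      exact hcon.1.1 h
    have h4 : vo P (E 0) = 0 := by
      by_contra h
      exact hcon.1.2 h
    have h5 : ε P = 0 := by
      by_contra h
      exact hcon.2 h
    apply hP
    rw [h3, h4, h5]
    rfl
  have h3 := hgt_le_of_ge (k := k) (f := T / c) (b := fun v => v.ord c - vo v (E 0) + ε v)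
    (fun v => by linarith [hc1 v]) hfin fun v => by
      by_cases hT : T = 0
      · left
        rw [hT, zero_div]
      · right
        rw [v.ord_div hT hc]
        have h4 : vo v (E 0) - ε v ≤ v.ord T := by
          rw [hε]
          have := ord_sec hE hT v (h1 v)
          convert this using 2
        omega
  refine h3.trans (le_of_eq ?_)
  have h4 : (fun v : Place k K => v.ord c - vo v (E 0) + ε v) =
      fun v => (v.ord c + -vo v (E 0)) + ε v := by
    funext v
    ring
  have h5 : (Function.support fun v : Place k K => -vo v (E 0)).Finite := by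
    refine (vo_finite hE0).subset fun P hP => ?_
    intro h
    apply hP
    change -vo P (E 0) = 0
    rw [h, neg_zero]
  have h6 : (Function.support fun v : Place k K => v.ord c + -vo v (E 0)).Finite := by
    refine ((finite_support (k := k) c).union h5).subset fun P hP => ?_
    by_contra hcon
    simp only [Set.mem_union, not_or, Function.mem_support, not_not] at hcon
    apply hP
    have h7 : P.ord c = 0 := by
      by_contra h
      exact hcon.1 h
    change P.ord c + -vo P (E 0) = 0
    rw [h7, hcon.2, add_zero]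
  have h7 : ∑ᶠ v, ε v = S.ncard := by
    rw [finsum_eq_sum_of_support_subset (s := hS.toFinset) ε (by
      intro P hP
      rw [hS.coe_toFinset]
      by_contra h
      exact hP (hε0 P h)), Set.ncard_eq_toFinset_card S hS]
    rw [Finset.sum_congr rfl fun P hP => by
      rw [hε, if_pos (hS.mem_toFinset.1 hP)]]
    simp
  rw [h4, finsum_add_distrib h6 hεf, finsum_add_distrib (finite_support (k := k) c) h5, sum_ord,
    zero_add, canDeg_eq hE0, finsum_neg_distrib, h7]

end ratio

section main

variable {k0 k : Type} [Field k0] [Field k] [Algebra k0 k] [IsAlgClosed k] [CharZero k]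
  [IsAlgClosed k0] {n m R : ℕ} {A : Type} [Fintype A] {d : A → ℕ}

/-- The heights of the coordinates of a nonconstant point of bounded degree. -/
theorem coord_bound (V : Set (MvPolynomial (Fin (n + 1)) k0))
    (hVh : ∀ f ∈ V, ∃ e, f.IsHomogeneous e) (hV : DimLE k0 V m) (Cs : Finset A)
    (hd : 2 * m + 2 * R ≤ ∑ a, d a + Cs.card + 1)
    (F : A → MvPolynomial (Fin (n + 1)) k) (hF : ∀ a, (F a).IsHomogeneous (d a))
    (I0 : A → Fin (n + 1) →₀ ℕ) (h0 : ∀ a, (F a).coeff (I0 a) ≠ 0)
    (hind : AlgebraicIndependent k0 fun p : Rt d I0 =>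
      (F p.1).coeff p.2.1 / (F p.1).coeff (I0 p.1)) (s : ℕ) (hs : s ≤ R) :
    ∃ B : ℕ, ∀ (K L : Type) [Field K] [Field L] [Algebra k K] [Algebra k L] [Algebra K L]
      [IsScalarTower k K L] [FiniteDimensional K L] [IsFF k K] [IsFF k L],
      Module.finrank K L = s → ∀ (x : Fin (n + 1) → L) (l0 : Fin (n + 1)), x l0 = 1 →
      IntermediateField.adjoin K (Set.range x) = ⊤ → (∃ j, Transcendental k (x j)) →
      (∀ f ∈ V, aeval x (map (algebraMap k0 k) f) = 0) → (∀ a ∈ Cs, aeval x (F a) = 0) →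
      (∀ b, b ∉ Cs → aeval x (F b) ≠ 0) → ∀ S : Set (Place k K), S.Finite →
      (∀ (P : Place k K) (Q : Place k L) (e : ℕ), Over Q P e →
        (∃ b, b ∉ Cs ∧ d b * pord Q x < Q.ord (aeval x (F b))) → P ∈ S) →
      ∀ j, hgt k (x j) ≤ B * max (canDeg k K + S.ncard) 0 := by
  classical
  obtain ⟨B, hB⟩ := hgt_coords k s (n + 1)
  refine ⟨B, fun K L _ _ _ _ _ _ _ _ _ hr x l0 hx hgen htr hxV hxF hxb S hS hSm => ?_⟩
  have hessK : Algebra.EssFiniteType k K := IsFF.ess
  have hessL : Algebra.EssFiniteType k L := IsFF.ess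
  have hnK : Algebra.trdeg k K = (1 : ℕ) := by
    rw [IsFF.trdeg (k := k) (K := K), Nat.cast_one]
  have hnL : Algebra.trdeg k L = (1 : ℕ) := by
    rw [IsFF.trdeg (k := k) (K := L), Nat.cast_one]
  obtain ⟨j1, hj1⟩ := htr
  have hx0 : x l0 ≠ 0 := by rw [hx]; exact one_ne_zero
  have hmem : x j1 ∈ coords k x := by
    unfold coords
    refine IntermediateField.subset_adjoin _ _ ⟨j1, l0, hx0, ?_⟩
    rw [hx, div_one]
  have halg : Algebra.IsAlgebraic (coords k x) L := by
    have h1 := IsFF.isAlgebraic hj1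
    have h2 : IntermediateField.adjoin k {x j1} ≤ coords k x := by
      rw [IntermediateField.adjoin_le_iff]
      rintro _ rfl
      exact hmem
    exact Pool.Agent.W602.GT.alg_mono h2 h1
  have hs1 : 0 < s := by rw [← hr]; exact Module.finrank_pos
  obtain ⟨ω, hω, ⟨D0, hD0⟩, hreg⟩ := twisted (ex := 2 * s - 1) (w := 1) V hVh hV Cs one_pos
    (by omega) F hF I0 h0 hind hnL (x := x) (c0 := l0) hx0 halg hxV hxF hxb
  simp only [hx, div_one] at hreg
  obtain ⟨y, E, hy, hE⟩ := Pool.Agent.Y172.exists_crd hnK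
  choose E' hE' using fun i => Pool.Agent.Y172.exists_lift (L := L) hnK (E i)
  have hyL : IsTranscendenceBasis k (fun j => algebraMap K L (y j)) := hy.algebraMap_comp
  have hEL := Pool.Agent.Y172.lift_dual hE hE'
  have hωE : ω E' ≠ 0 := by
    intro h0
    apply hD0
    rw [Pool.Agent.Y172.pluri_coord hyL hEL hω D0, h0, mul_zero]
  obtain ⟨T, hT⟩ : ∃ T : (Fin (2 * s - 1) → Fin (n + 1)) → K, ∀ f, T f =
    Algebra.trace K L ((∏ i, x (f i)) * ω E') := ⟨_, fun _ => rfl⟩
  have hemp : IsEmpty (Fin (1 - 1)) := ⟨fun i => i.elim0⟩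
  have hdiv : ∀ {M : Type} [Field M] [Algebra k M] (P : Place k M), Divisorial 1 P := fun P => by
    refine ⟨fun i => i.elim0, fun G hG => ?_⟩
    obtain ⟨c, rfl⟩ := MvPolynomial.C_surjective (Fin (1 - 1)) G
    have hc : c ≠ 0 := by
      rintro rfl
      exact hG (map_zero _)
    rw [MvPolynomial.aeval_C]
    exact ⟨(map_ne_zero _).2 hc, P.ord_const hc⟩
  have hTr : ∀ f P, SecAt (fun P => P ∈ S) P (trForm (k := k) y (T f)) := by
    intro f P
    have h1 := trForm_sec (n := 1) hnK hy hE hE' (fun D => (∏ j, x (f j)) * ω D) (by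
      intro A D
      change (∏ j, x (f j)) * ω (fun i => ∑ j, A i j • D j) = _
      rw [hω A D]
      ring) (BK := fun P => P ∈ S)
      (BL := fun Q : Place k L => ∃ b, b ∉ Cs ∧ d b * pord Q x < Q.ord (aeval x (F b))) hSm
      (fun Q _ => hreg f Q (hdiv Q)) P (hdiv P)
    rw [hT]
    exact h1
  obtain ⟨c, hc, hct⟩ : ∃ c : K, c ≠ 0 ∧ ∀ f, hgt k (T f / c) ≤
      max (canDeg k K + S.ncard) 0 := by
    by_cases hall : ∀ f, T f = 0
    · refine ⟨1, one_ne_zero, fun f => ?_⟩
      rw [hall f, zero_div, hgt_zero]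
      exact le_max_right _ _
    · push Not at hall
      obtain ⟨f0, hf0⟩ := hall
      exact ⟨T f0, hf0, fun f => (hgt_ratio_log hE hf0 hS (hTr f) (hTr f0)).trans
        (le_max_left _ _)⟩
  exact hB K L hr x l0 (ω E') c _ hx hgen hωE hc (le_max_right _ _) fun f => by
    rw [← hT]
    exact hct f

/-- **The heights of the points of bounded degree of generic logarithmic pairs.** -/
theorem log_bound (V : Set (MvPolynomial (Fin (n + 1)) k0))
    (hVh : ∀ f ∈ V, ∃ e, f.IsHomogeneous e) (hV : DimLE k0 V m) (Cs : Finset A)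
    (hd : 2 * m + 2 * R ≤ ∑ a, d a + Cs.card + 1)
    (F : A → MvPolynomial (Fin (n + 1)) k) (hF : ∀ a, (F a).IsHomogeneous (d a))
    (I0 : A → Fin (n + 1) →₀ ℕ) (h0 : ∀ a, (F a).coeff (I0 a) ≠ 0)
    (hind : AlgebraicIndependent k0 fun p : Rt d I0 =>
      (F p.1).coeff p.2.1 / (F p.1).coeff (I0 p.1)) :
    ∃ B : ℕ, ∀ (K L : Type) [Field K] [Field L] [Algebra k K] [Algebra k L] [Algebra K L]
      [IsScalarTower k K L] [FiniteDimensional K L] [IsFF k K] [IsFF k L],
      Module.finrank K L ≤ R → ∀ (x : Fin (n + 1) → L) (l0 : Fin (n + 1)), x l0 = 1 →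
      IntermediateField.adjoin K (Set.range x) = ⊤ →
      (∀ f ∈ V, aeval x (map (algebraMap k0 k) f) = 0) → (∀ a ∈ Cs, aeval x (F a) = 0) →
      (∀ b, b ∉ Cs → aeval x (F b) ≠ 0) → ∀ S : Set (Place k K), S.Finite →
      (∀ (P : Place k K) (Q : Place k L) (e : ℕ), Over Q P e →
        (∃ b, b ∉ Cs ∧ d b * pord Q x < Q.ord (aeval x (F b))) → P ∈ S) →
      ∀ j, hgt k (x j) ≤ B * max (canDeg k K + S.ncard) 0 := by
  classical
  choose B hB using fun s : Fin (R + 1) => coord_bound (k := k) V hVh hV Cs hd F hF I0 h0 hind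
    s.1 (Nat.lt_succ_iff.1 s.2)
  refine ⟨∑ s, B s, fun K L _ _ _ _ _ _ _ _ _ hr x l0 hx hgen hxV hxF hxb S hS hSm j => ?_⟩
  by_cases htr : ∃ j, Transcendental k (x j)
  · refine (hB ⟨Module.finrank K L, Nat.lt_succ_of_le hr⟩ K L rfl x l0 hx hgen htr hxV hxF hxb S
      hS hSm j).trans (mul_le_mul_of_nonneg_right ?_ (le_max_right _ _))
    exact_mod_cast Finset.single_le_sum (f := B) (fun _ _ => Nat.zero_le _) (Finset.mem_univ _)
  · push Not at htr
    have h2 := htr j
    rw [Transcendental, not_not] at h2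
    rw [hgt_algebraic h2]
    exact mul_nonneg (by positivity) (le_max_right _ _)

end main

end Pool.Agent.N95.HK
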