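import Pool.Agent.N95.HK.Cmp

/-!
The Lang–Vojta conjecture for the affine varieties with finite correspondences to generic pairs.
-/

set_option autoImplicit false
set_option linter.unusedSectionVars false
set_option linter.overlappingInstances false

open FF IntermediateField

namespace Pool.Agent.N95.HK

open Pool.Agent.N111.GJ (Corr GenericPair IsSub ess_of_adjoin)
open Pool.Agent.W603.PV Pool.Agent.W603.LV

/-- Let `B` be a function field of one variable over `K`, and let `E` be a finite extension of `B`.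
The elements `f` of `E` are the coordinates of a morphism to the affine variety with coordinates `u`,
from the affine curve which is the normalization in `E` of the affine curve with function field `B`
which is the complement of the finite set `S` of points in the smooth projective curve. -/
structure MapFrom (K : Type) [Field K] {L : Type} [Field L] [Algebra K L] {N : ℕ} (u : Fin N → L)
    {B E : Type} [Field B] [Field E] [Algebra K B] [Algebra K E] [Algebra B E]
    (S : Set (Place K B)) (f : Fin N → E) : Prop where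
  rel : ∀ P : MvPolynomial (Fin N) K, MvPolynomial.aeval u P = 0 → MvPolynomial.aeval f P = 0
  reg : ∀ (P : Place K B) (Q : Place K E) (e : ℕ), Over Q P e → P ∉ S → ∀ j, Q.Reg (f j)

section

variable {k K : Type} [Field k] [Field K] [IsAlgClosed K] [CharZero K] [Algebra k K] {L : Type}
  [Field L] [Algebra K L] {N : ℕ} {u : Fin N → L}

theorem poles_sub {L : Type} [Field L] [Algebra K L] {N : ℕ} {u : Fin N → L} {B E : Type} [Field B]
    [Field E] [Algebra K B] [Algebra K E] [Algebra B E] {S : Set (Place K B)} {f : Fin N → E}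
    (h : MapFrom K u S f) : poles K B f ⊆ S := by
  rintro P ⟨Q, e, hQ, j, hj⟩
  by_contra hP
  exact hj (h.reg P Q e hQ hP j)

theorem pht_cons_le {E : Type} [Field E] [Algebra K E] [IsFF K E] {f : Fin N → E} {H : ℤ}
    (h : ∀ j, hgt K (f j) ≤ H) : pht K (Fin.cons 1 f : Fin (N + 1) → E) ≤ N * H := by
  have h0 : (Fin.cons 1 f : Fin (N + 1) → E) 0 ≠ 0 := one_ne_zero
  refine (pht_le _ h0).trans ?_
  rw [Fin.sum_univ_succ]
  simp only [Fin.cons_zero, Fin.cons_succ, div_one, hgt_one, zero_add]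
  refine (Finset.sum_le_sum fun j _ => h j).trans (le_of_eq ?_)
  rw [Finset.sum_const, Finset.card_univ, Fintype.card_fin, nsmul_eq_mul]

/-- **The degrees of the maps to the subvarieties on which a correspondence is generically
finite.** -/
theorem gf_bound {W : Corr k K u} {r e : ℕ} (hr : W.FibresLE r) {E₀ : Type} [Field E₀]
    [Algebra K E₀] {z : Fin N → E₀} (hW : W.GenericallyFiniteOn z)
    (hd : 2 * W.X.m + 2 * (r * e) ≤ W.X.size + 1) :
    ∃ (G : MvPolynomial (Fin N) K) (A : ℕ), MvPolynomial.aeval z G ≠ 0 ∧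
      ∀ (B E : Type) [Field B] [Field E] [Algebra K B] [Algebra K E] [Algebra B E]
        [IsScalarTower K B E] [FiniteDimensional B E] [IsFF K B] [IsFF K E],
        Module.finrank B E ≤ e → ∀ (S : Set (Place K B)) (f : Fin N → E), S.Finite →
        MapFrom K z S f → MvPolynomial.aeval f G ≠ 0 →
        pht K (Fin.cons 1 f : Fin (N + 1) → E) ≤ A * max (canDeg K B + S.ncard) 0 := by
  classical
  obtain ⟨φ₀, hφ₀, halg⟩ := hW
  have hval : ∀ P : MvPolynomial (Fin N) K, φ₀ (MvPolynomial.aeval W.uR P) =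
      algebraMap E₀ (AlgebraicClosure E₀) (MvPolynomial.aeval z P) := by
    intro P
    rw [W.hom_aeval]
    have h1 : (fun j => φ₀ (W.uR j)) = fun j => algebraMap E₀ (AlgebraicClosure E₀) (z j) := by
      funext j
      exact hφ₀ j _ rfl
    rw [h1]
    exact MvPolynomial.aeval_algebraMap_apply _ z P
  obtain ⟨c, hc, A₁, hA₁⟩ := cmp_one φ₀ fun j => by
    have h1 : φ₀ (W.uR j) = algebraMap E₀ (AlgebraicClosure E₀) (z j) := hφ₀ j _ rfl
    rw [h1]
    exact halg j
  obtain ⟨G, hG, hG'⟩ := exists_nonzero hc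
  obtain ⟨A₂, hA₂⟩ := values_bound W hr hd
  refine ⟨G, N * (A₁ * A₂), fun h0 => hG (by rw [hval, h0, map_zero]),
    fun B E _ _ _ _ _ _ _ _ _ he S f hS hf hfG => ?_⟩
  obtain ⟨χ, hχ⟩ : ∃ χ : ℤ, χ = max (canDeg K B + S.ncard) 0 := ⟨_, rfl⟩
  rw [← hχ]
  have hχ' : max (canDeg K B + (poles K B f).ncard) 0 ≤ χ := by
    rw [hχ]
    have h1 := Set.ncard_le_ncard (poles_sub hf) hS
    have h2 : ((poles K B f).ncard : ℤ) ≤ S.ncard := by exact_mod_cast h1
    exact max_le_max (by linarith) le_rfl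
  have hχ0 : 0 ≤ χ := by rw [hχ]; exact le_max_right _ _
  have hev : ∀ P : MvPolynomial (Fin N) K,
      MvPolynomial.aeval (fun j => algebraMap E (AlgebraicClosure E) (f j)) P =
      algebraMap E (AlgebraicClosure E) (MvPolynomial.aeval f P) := fun P =>
    MvPolynomial.aeval_algebraMap_apply _ f P
  obtain ⟨φ, hφ, hker⟩ := exists_over_ker φ₀
    (f := fun j => algebraMap E (AlgebraicClosure E) (f j)) (fun P hP => by
      rw [hval, map_eq_zero_iff _ (algebraMap E₀ (AlgebraicClosure E₀)).injective] at hP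
      rw [hev, hf.rel P hP, map_zero])
  obtain ⟨F, hfd, φ', hF, hcoe, hH⟩ := hA₂ B E (AlgebraicClosure E) he f φ hφ
  have hFF : IsFF K F := isFF_of_finite (F := E)
  have h1 := hA₁ F φ' (A₂ * χ) (by positivity) (fun y hy => (hH y hy).trans
    (mul_le_mul_of_nonneg_left hχ' (by positivity))) (fun b hb => Subtype.ext (by
      rw [hcoe, hker b hb]
      rfl)) (by
      intro h0
      refine hG' (AlgebraicClosure E) φ hker ?_ ?_
      · rw [W.hom_aeval]
        have h1 : (fun j => φ (W.uR j)) = fun j => algebraMap E (AlgebraicClosure E) (f j) := by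
          funext j
          exact hφ j _ rfl
        rw [h1, hev]
        exact (_root_.map_ne_zero _).2 hfG
      · rw [← hcoe, h0]
        rfl)
  have h2 : ∀ j, hgt K (f j) ≤ A₁ * (A₂ * χ) := by
    intro j
    have h3 : φ' (W.uR j) = algebraMap E F (f j) := by
      apply Subtype.ext
      rw [hcoe]
      exact hφ j _ rfl
    have h4 := h1 j
    rw [h3, hgt_algebraMap] at h4
    have h5 : (1 : ℤ) ≤ Module.finrank E F := by
      exact_mod_cast (Module.finrank_pos : 0 < Module.finrank E F)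
    have h6 : 0 ≤ hgt K (f j) := hgt_nonneg _
    nlinarith
  refine (pht_cons_le h2).trans (le_of_eq ?_)
  push_cast
  ring

/-- generic points of closed subvarieties -/
theorem exists_generic (I : Ideal (MvPolynomial (Fin N) K)) [hI : I.IsPrime]
    (hu : ∀ P : MvPolynomial (Fin N) K, MvPolynomial.aeval u P = 0 → P ∈ I) :
    ∃ (E : Type) (_ : Field E) (_ : Algebra K E) (w : ℕ) (z : Fin N → E), IsSub K u z w ∧
      (∀ P : MvPolynomial (Fin N) K, MvPolynomial.aeval z P = 0 ↔ P ∈ I) ∧
      (w = 0 → ∀ j, ∃ t : K, MvPolynomial.X j - MvPolynomial.C t ∈ I) := by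
  classical
  let A := MvPolynomial (Fin N) K ⧸ I
  let E := FractionRing A
  let z : Fin N → E := fun j => algebraMap A E (Ideal.Quotient.mk I (MvPolynomial.X j))
  have hz : ∀ P : MvPolynomial (Fin N) K, MvPolynomial.aeval z P =
      algebraMap A E (Ideal.Quotient.mk I P) := by
    intro P
    have h1 : MvPolynomial.aeval z =
        (IsScalarTower.toAlgHom K A E).comp (Ideal.Quotient.mkₐ K I) := by
      apply MvPolynomial.algHom_ext
      intro j
      rw [MvPolynomial.aeval_X]
      rfl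
    rw [h1]
    rfl
  have hz0 : ∀ P : MvPolynomial (Fin N) K, MvPolynomial.aeval z P = 0 ↔ P ∈ I := by
    intro P
    rw [hz, map_eq_zero_iff _ (IsFractionRing.injective A E), Ideal.Quotient.eq_zero_iff_mem]
  have hgen : adjoin K (Set.range z) = ⊤ := by
    rw [eq_top_iff]
    rintro t -
    have hA : ∀ a : A, algebraMap A E a ∈ adjoin K (Set.range z) := by
      intro a
      obtain ⟨P, rfl⟩ := Ideal.Quotient.mk_surjective a
      rw [← hz, MvPolynomial.aeval_def, MvPolynomial.eval₂_eq']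
      exact sum_mem fun I _ => mul_mem (IntermediateField.algebraMap_mem _ _)
        (prod_mem fun j _ => pow_mem (subset_adjoin K (Set.range z) ⟨j, rfl⟩) _)
    obtain ⟨a, b, -, rfl⟩ := IsFractionRing.div_surjective (A := A) t
    exact div_mem (hA a) (hA b)
  have hess : Algebra.EssFiniteType K E := ess_of_adjoin hgen
  obtain ⟨w, hw⟩ := Cardinal.lt_aleph0.1 (trdeg_lt_aleph0 K E)
  refine ⟨E, inferInstance, inferInstance, w, z, ⟨fun P hP => (hz0 P).2 (hu P hP), hgen, hw⟩, hz0,
    fun h0 j => ?_⟩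
  rw [h0, Nat.cast_zero, trdeg_eq_zero_iff] at hw
  have hbij : Function.Bijective (algebraMap K E) := IsAlgClosed.algebraMap_bijective_of_isIntegral
  obtain ⟨t, ht⟩ := hbij.2 (z j)
  refine ⟨t, (hz0 _).1 ?_⟩
  rw [map_sub, MvPolynomial.aeval_X, MvPolynomial.aeval_C, ht, sub_self]

/-- **The degrees of the maps off the exceptional subvarieties**, on which no correspondence is
generically finite. -/
theorem off_bound (e : ℕ) : ∃ A : ℕ, ∀ (B E : Type) [Field B] [Field E] [Algebra K B]
      [Algebra K E] [Algebra B E] [IsScalarTower K B E] [FiniteDimensional B E] [IsFF K B]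
      [IsFF K E], Module.finrank B E ≤ e → ∀ (S : Set (Place K B)) (f : Fin N → E), S.Finite →
      MapFrom K u S f →
      pht K (Fin.cons 1 f : Fin (N + 1) → E) ≤ A * max (canDeg K B + S.ncard) 0 ∨
      ∃ (E₀ : Type) (_ : Field E₀) (_ : Algebra K E₀) (w : ℕ) (z : Fin N → E₀), 0 < w ∧
        IsSub K u z w ∧
        (∀ P : MvPolynomial (Fin N) K, MvPolynomial.aeval z P = 0 → MvPolynomial.aeval f P = 0) ∧
        ∀ (W : Corr k K u) (r : ℕ), W.FibresLE r → 2 * W.X.m + 2 * (r * e) ≤ W.X.size + 1 →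
          ¬ W.GenericallyFiniteOn z := by
  classical
  suffices h : ∀ I : Ideal (MvPolynomial (Fin N) K), ∃ A : ℕ, ∀ (B E : Type) [Field B] [Field E]
      [Algebra K B] [Algebra K E] [Algebra B E] [IsScalarTower K B E] [FiniteDimensional B E]
      [IsFF K B] [IsFF K E], Module.finrank B E ≤ e → ∀ (S : Set (Place K B)) (f : Fin N → E),
      S.Finite → MapFrom K u S f → (∀ P ∈ I, MvPolynomial.aeval f P = 0) →
      pht K (Fin.cons 1 f : Fin (N + 1) → E) ≤ A * max (canDeg K B + S.ncard) 0 ∨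
      ∃ (E₀ : Type) (_ : Field E₀) (_ : Algebra K E₀) (w : ℕ) (z : Fin N → E₀), 0 < w ∧
        IsSub K u z w ∧
        (∀ P : MvPolynomial (Fin N) K, MvPolynomial.aeval z P = 0 → MvPolynomial.aeval f P = 0) ∧
        ∀ (W : Corr k K u) (r : ℕ), W.FibresLE r → 2 * W.X.m + 2 * (r * e) ≤ W.X.size + 1 →
          ¬ W.GenericallyFiniteOn z by
    obtain ⟨A, hA⟩ := h ⊥
    refine ⟨A, fun B E _ _ _ _ _ _ _ _ _ he S f hS hf => hA B E he S f hS hf fun P hP => ?_⟩
    rw [Ideal.mem_bot] at hP
    rw [hP, map_zero]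
  intro I
  induction I using IsNoetherian.induction with
  | _ I ih =>
  have hsup : ∀ c : MvPolynomial (Fin N) K, c ∉ I → ∃ A : ℕ, ∀ (B E : Type) [Field B] [Field E]
      [Algebra K B] [Algebra K E] [Algebra B E] [IsScalarTower K B E] [FiniteDimensional B E]
      [IsFF K B] [IsFF K E], Module.finrank B E ≤ e → ∀ (S : Set (Place K B)) (f : Fin N → E),
      S.Finite → MapFrom K u S f → (∀ P ∈ I, MvPolynomial.aeval f P = 0) →
      MvPolynomial.aeval f c = 0 →
      pht K (Fin.cons 1 f : Fin (N + 1) → E) ≤ A * max (canDeg K B + S.ncard) 0 ∨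
      ∃ (E₀ : Type) (_ : Field E₀) (_ : Algebra K E₀) (w : ℕ) (z : Fin N → E₀), 0 < w ∧
        IsSub K u z w ∧
        (∀ P : MvPolynomial (Fin N) K, MvPolynomial.aeval z P = 0 → MvPolynomial.aeval f P = 0) ∧
        ∀ (W : Corr k K u) (r : ℕ), W.FibresLE r → 2 * W.X.m + 2 * (r * e) ≤ W.X.size + 1 →
          ¬ W.GenericallyFiniteOn z := by
    intro c hc
    obtain ⟨A, hA⟩ := ih (I ⊔ Ideal.span {c}) (by
      refine lt_of_le_of_ne le_sup_left fun h => hc ?_
      rw [h]
      exact Ideal.mem_sup_right (Ideal.mem_span_singleton_self c))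
    refine ⟨A, fun B E _ _ _ _ _ _ _ _ _ he S f hS hf hI hfc => hA B E he S f hS hf ?_⟩
    have h1 : I ⊔ Ideal.span {c} ≤ RingHom.ker (MvPolynomial.aeval (R := K) f) := by
      rw [sup_le_iff, Ideal.span_singleton_le_iff_mem]
      exact ⟨fun b hb => hI b hb, hfc⟩
    exact fun b hb => h1 hb
  by_cases hI1 : I = ⊤
  · refine ⟨0, fun B E _ _ _ _ _ _ _ _ _ he S f hS hf hI => ?_⟩
    have h1 := hI 1 (by rw [hI1]; trivial)
    rw [map_one] at h1
    exact absurd h1 one_ne_zero
  by_cases hIp : Ideal.IsPrime I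
  swap
  · rw [Ideal.isPrime_iff] at hIp
    push Not at hIp
    obtain ⟨a, b, hab, ha, hb⟩ := hIp hI1
    obtain ⟨A1, hA1⟩ := hsup a ha
    obtain ⟨A2, hA2⟩ := hsup b hb
    refine ⟨A1 + A2, fun B E _ _ _ _ _ _ _ _ _ he S f hS hf hI => ?_⟩
    have h1 := hI _ hab
    rw [map_mul, mul_eq_zero] at h1
    push_cast
    rw [add_mul]
    have h2 : (0 : ℤ) ≤ A1 * max (canDeg K B + S.ncard) 0 :=
      mul_nonneg (by positivity) (le_max_right _ _)
    have h3 : (0 : ℤ) ≤ A2 * max (canDeg K B + S.ncard) 0 :=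
      mul_nonneg (by positivity) (le_max_right _ _)
    rcases h1 with h1 | h1
    · exact (hA1 B E he S f hS hf hI h1).imp (fun h => by linarith) id
    · exact (hA2 B E he S f hS hf hI h1).imp (fun h => by linarith) id
  by_cases hu : ∀ P : MvPolynomial (Fin N) K, MvPolynomial.aeval u P = 0 → P ∈ I
  swap
  · push Not at hu
    obtain ⟨c, hc, hcI⟩ := hu
    obtain ⟨A, hA⟩ := hsup c hcI
    exact ⟨A, fun B E _ _ _ _ _ _ _ _ _ he S f hS hf hI => hA B E he S f hS hf hI (hf.rel c hc)⟩
  obtain ⟨E₀, _, _, w, z, hz, hzI, hw⟩ := exists_generic (u := u) I hu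
  by_cases hw0 : w = 0
  · refine ⟨0, fun B E _ _ _ _ _ _ _ _ _ he S f hS hf hI => Or.inl ?_⟩
    have h1 : ∀ j, hgt K (f j) ≤ 0 := by
      intro j
      obtain ⟨t, ht⟩ := hw hw0 j
      have h2 := hI _ ht
      rw [map_sub, MvPolynomial.aeval_X, MvPolynomial.aeval_C, sub_eq_zero] at h2
      rw [h2, Pool.Agent.TH145.MG.hgt_const]
    refine (pht_cons_le h1).trans ?_
    simp
  by_cases hex : ∃ (W : Corr k K u) (r : ℕ), W.FibresLE r ∧
      2 * W.X.m + 2 * (r * e) ≤ W.X.size + 1 ∧ W.GenericallyFiniteOn z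
  swap
  · push Not at hex
    exact ⟨0, fun B E _ _ _ _ _ _ _ _ _ he S f hS hf hI => Or.inr ⟨E₀, _, _, w, z,
      Nat.pos_of_ne_zero hw0, hz, fun P hP => hI P ((hzI P).1 hP), hex⟩⟩
  obtain ⟨W, r, hr, hd, hW⟩ := hex
  obtain ⟨G, A1, hG, hA1⟩ := gf_bound hr hW hd
  obtain ⟨A2, hA2⟩ := hsup G fun h => hG ((hzI G).2 h)
  refine ⟨A1 + A2, fun B E _ _ _ _ _ _ _ _ _ he S f hS hf hI => ?_⟩
  push_cast
  rw [add_mul]
  have h2 : (0 : ℤ) ≤ A1 * max (canDeg K B + S.ncard) 0 :=
    mul_nonneg (by positivity) (le_max_right _ _)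
  have h3 : (0 : ℤ) ≤ A2 * max (canDeg K B + S.ncard) 0 :=
    mul_nonneg (by positivity) (le_max_right _ _)
  by_cases h1 : MvPolynomial.aeval f G = 0
  · exact (hA2 B E he S f hS hf hI h1).imp (fun h => by linarith) id
  · left
    have h4 := hA1 B E he S f hS ⟨fun P hP => hI P ((hzI P).1 hP), hf.reg⟩ h1
    linarith

end

end Pool.Agent.N95.HK
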